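import Pool.Agent.Helper94_PP.StmtsKR
import Pool.Agent.Helper94_PP.Bridge

/-!
# Squad PP, module TOP: idempotents of the group ring as functions
-/

open scoped BigOperators

noncomputable section

namespace Pool.Agent.PP.H46

open Pool.Agent.Helper51_AWC Pool.Agent.Helper79_WRA Pool.Agent.PP

section alg

variable {F H : Type} [Field F] [Group H] [Finite H]

theorem mulF_comm {a : H → F} (ha : IsCl a) (b : H → F) : mulF a b = mulF b a := by
  apply ma_injective
  rw [ma_mul, ma_mul]
  exact ((Subalgebra.mem_center_iff.1 ((isCl_iff a).1 ha)) (ma b)).symm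

theorem comm_ma {a : H → F} (ha : IsCl a) (x : MonoidAlgebra F H) : ma a * x = x * ma a :=
  ((Subalgebra.mem_center_iff.1 ((isCl_iff a).1 ha)) x).symm

theorem ma_idem {e : H → F} (he : IsIdem e) : ma e * ma e = ma e := ((isIdem_iff e).1 he).2

theorem isIdem_zero : IsIdem (0 : H → F) := by
  rw [isIdem_iff, ma_zero]
  exact ⟨Subalgebra.zero_mem _, IsIdempotentElem.zero⟩

theorem isIdem_one : IsIdem (dl F (1 : H)) := by
  rw [isIdem_iff, ma_dl]
  exact ⟨Subalgebra.one_mem _, IsIdempotentElem.one⟩

theorem mulF_one (a : H → F) : mulF a (dl F (1 : H)) = a := by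
  apply ma_injective
  rw [ma_mul, ma_dl]
  exact mul_one _

theorem one_mulF (a : H → F) : mulF (dl F (1 : H)) a = a := by
  apply ma_injective
  rw [ma_mul, ma_dl]
  exact one_mul _

theorem mulF_zero (a : H → F) : mulF a 0 = 0 := by
  apply ma_injective
  rw [ma_mul, ma_zero, mul_zero]

theorem mulF_add (a b c : H → F) : mulF a (b + c) = mulF a b + mulF a c := by
  apply ma_injective
  rw [ma_mul, ma_add, ma_add, ma_mul, ma_mul, mul_add]

theorem isIdem_mul {e g : H → F} (he : IsIdem e) (hg : IsIdem g) : IsIdem (mulF e g) := by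
  rw [isIdem_iff] at he hg ⊢
  rw [ma_mul]
  refine ⟨Subalgebra.mul_mem _ he.1 hg.1, ?_⟩
  have h1 : ma g * ma e = ma e * ma g := ((Subalgebra.mem_center_iff.1 hg.1) (ma e)).symm
  change ma e * ma g * (ma e * ma g) = ma e * ma g
  calc ma e * ma g * (ma e * ma g) = ma e * (ma g * ma e) * ma g := by simp only [mul_assoc]
    _ = ma e * (ma e * ma g) * ma g := by rw [h1]
    _ = (ma e * ma e) * (ma g * ma g) := by simp only [mul_assoc]
    _ = ma e * ma g := by rw [he.2, hg.2]

theorem isIdem_sub {e g : H → F} (he : IsIdem e) (hg : IsIdem g) (h : mulF e g = g) :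
    IsIdem (e - g) ∧ mulF g (e - g) = 0 := by
  have hc : mulF g e = g := by rw [mulF_comm hg.1, h]
  have h1 : ma e * ma g = ma g := by rw [← ma_mul, h]
  have h2 : ma g * ma e = ma g := by rw [← ma_mul, hc]
  have h3 := ma_idem he
  have h4 := ma_idem hg
  constructor
  · rw [isIdem_iff, ma_sub]
    refine ⟨Subalgebra.sub_mem _ ((isIdem_iff e).1 he).1 ((isIdem_iff g).1 hg).1, ?_⟩
    change (ma e - ma g) * (ma e - ma g) = ma e - ma g
    rw [mul_sub, sub_mul, sub_mul, h1, h2, h3, h4, sub_self, sub_zero]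
  · apply ma_injective
    rw [ma_mul, ma_sub, mul_sub, h2, h4, sub_self, ma_zero]

/-- the rank of an idempotent -/
def rkI (e : H → F) : ℕ :=
  Module.finrank F (LinearMap.range (LinearMap.mulLeft F (ma e)))

instance : Module.Finite F (MonoidAlgebra F H) :=
  Module.Finite.equiv (maL : (H → F) ≃ₗ[F] MonoidAlgebra F H)

theorem rkI_lt {e e₁ e₂ : H → F} (h1 : IsIdem e₁) (h2 : IsIdem e₂) (h12 : mulF e₁ e₂ = 0)
    (hs : e = e₁ + e₂) (h0 : e₂ ≠ 0) : rkI e₁ < rkI e := by
  have k1 := ma_idem h1
  have k2 := ma_idem h2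
  have k3 : ma e₁ * ma e₂ = 0 := by rw [← ma_mul, h12, ma_zero]
  have k4 : ma e₂ * ma e₁ = 0 := by rw [← comm_ma h1.1, k3]
  have k5 : ma e * ma e₁ = ma e₁ := by rw [hs, ma_add, add_mul, k1, k4, add_zero]
  have k6 : ma e * ma e₂ = ma e₂ := by rw [hs, ma_add, add_mul, k2, k3, zero_add]
  apply Submodule.finrank_lt_finrank_of_lt
  refine lt_of_le_of_ne ?_ ?_
  · rintro x ⟨y, rfl⟩
    refine ⟨ma e₁ * y, ?_⟩
    rw [LinearMap.mulLeft_apply, LinearMap.mulLeft_apply, ← mul_assoc, k5]
  · intro heq
    have h5 : ma e₂ ∈ LinearMap.range (LinearMap.mulLeft F (ma e)) :=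
      ⟨ma e₂, by rw [LinearMap.mulLeft_apply, k6]⟩
    rw [← heq] at h5
    obtain ⟨y, hy⟩ := h5
    rw [LinearMap.mulLeft_apply] at hy
    apply h0
    apply ma_injective
    have : ma e₁ * ma e₂ = ma e₂ := by rw [← hy, ← mul_assoc, k1]
    rw [ma_zero, ← this, k3]

/-- Induction over the blocks under an idempotent. -/
theorem idem_induction (P : (H → F) → Prop) (h0 : P 0) (hb : ∀ b, IsBlk b → P b)
    (hadd : ∀ e₁ e₂, IsIdem e₁ → IsIdem e₂ → mulF e₁ e₂ = 0 → P e₁ → P e₂ → P (e₁ + e₂)) :
    ∀ e, IsIdem e → P e := by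
  intro e he
  induction hn : rkI e using Nat.strong_induction_on generalizing e with
  | _ n ih =>
    by_cases hz : e = 0
    · rw [hz]; exact h0
    · by_cases hB : IsBlk e
      · exact hb e hB
      · have h1 : ∃ g : H → F, IsIdem g ∧ mulF e g ≠ e ∧ mulF e g ≠ 0 := by
          by_contra hcon
          apply hB
          refine ⟨he, hz, fun g hg => ?_⟩
          by_contra h2
          push Not at h2
          exact hcon ⟨g, hg, h2.1, h2.2⟩
        obtain ⟨g, hg, h2, h3⟩ := h1
        have h4 : IsIdem (mulF e g) := isIdem_mul he hg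
        have h5 : mulF e (mulF e g) = mulF e g := by rw [← mulF_assoc, he.2]
        obtain ⟨h6, h7⟩ := isIdem_sub he h4 h5
        have h8 : e = mulF e g + (e - mulF e g) := by abel
        have h9 : e = (e - mulF e g) + mulF e g := by abel
        have h10 : mulF (e - mulF e g) (mulF e g) = 0 := by rw [← mulF_comm h4.1, h7]
        have h11 : e - mulF e g ≠ 0 := fun h => h2 (sub_eq_zero.1 h).symm
        rw [h8]
        apply hadd _ _ h4 h6 h7
        · exact ih _ (by rw [← hn]; exact rkI_lt h4 h6 h7 h8 h11) _ h4 rfl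
        · exact ih _ (by rw [← hn]; exact rkI_lt h6 h4 h10 h9 h3) _ h6 rfl

theorem pos_mono {ℓ : ℕ} {e g : H → F} (hg : IsIdem g) (h : mulF g e = g)
    {Q : Subgroup H} (hp : Pos ℓ e Q) : Pos ℓ g Q := by
  intro x hx hd
  obtain ⟨n, hn⟩ := hp x hx hd
  refine ⟨n, ?_⟩
  apply ma_injective
  have h1 : ma (clsum F Q x) ^ n * ma e = 0 := by rw [← ma_iterate, hn, ma_zero]
  rw [ma_iterate, ma_zero, ← h, ma_mul, comm_ma hg.1, ← mul_assoc, h1, zero_mul]

omit [Finite H] in
theorem clsum_one (Q : Subgroup H) : clsum F Q (1 : H) = dl F (1 : H) := by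
  classical
  funext y
  unfold clsum dl
  by_cases h : y = 1
  · rw [if_pos h, if_pos]
    exact ⟨1, Q.one_mem, by rw [h]; group⟩
  · rw [if_neg h, if_neg]
    rintro ⟨q, _, hq⟩
    apply h
    rw [hq]
    group

/-- If `ℓ` does not divide the order of `N` then only the zero idempotent is positive. -/
theorem pos_card {ℓ : ℕ} {e : H → F} {N : Subgroup H} (hp : Pos ℓ e N)
    (hN : ¬ ℓ ∣ Nat.card N) : e = 0 := by
  have h1 : Subgroup.centralizer ({1} : Set H) ⊓ N = N := by
    rw [inf_eq_right]
    intro x _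
    rw [Subgroup.mem_centralizer_singleton_iff]
    rw [mul_one, one_mul]
  obtain ⟨n, hn⟩ := hp 1 N.one_mem (by rw [h1]; exact hN)
  have h2 : ∀ k : ℕ, (mulF (clsum F N (1 : H)))^[k] e = e := by
    intro k
    induction k with
    | zero => rfl
    | succ k ih => rw [Function.iterate_succ_apply', ih, clsum_one, one_mulF]
  rw [← hn, h2]

/-- the class sums of a subgroup commute -/
theorem commute_clsum {N : Subgroup H} {x y : H} (hx : x ∈ N) :
    Commute (ma (clsum F N x)) (ma (clsum F N y)) := by
  classical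
  have key : ∀ g ∈ N, MonoidAlgebra.single g 1 * ma (clsum F N y) =
      ma (clsum F N y) * MonoidAlgebra.single g (1 : F) := by
    intro g hg
    rw [← ma_dl, ← ma_mul, ← ma_mul]
    congr 1
    funext t
    have := Fintype.ofFinite H
    unfold mulF
    rw [finsum_eq_sum_of_fintype, finsum_eq_sum_of_fintype, Finset.sum_eq_single g,
      Finset.sum_eq_single (t * g⁻¹)]
    · have e1 : (t * g⁻¹)⁻¹ * t = g := by group
      rw [e1]
      unfold dl
      rw [if_pos rfl, one_mul, mul_one]
      unfold clsum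
      have e2 : (∃ q ∈ N, g⁻¹ * t = q * y * q⁻¹) ↔ (∃ q ∈ N, t * g⁻¹ = q * y * q⁻¹) := by
        constructor
        · rintro ⟨q, hq, h⟩
          refine ⟨g * q, N.mul_mem hg hq, ?_⟩
          have : t = g * (q * y * q⁻¹) := by rw [← h]; group
          rw [this]; group
        · rintro ⟨q, hq, h⟩
          refine ⟨g⁻¹ * q, N.mul_mem (N.inv_mem hg) hq, ?_⟩
          have : t = (q * y * q⁻¹) * g := by rw [← h]; group
          rw [this]; group
      by_cases h : ∃ q ∈ N, g⁻¹ * t = q * y * q⁻¹
      · rw [if_pos h, if_pos (e2.1 h)]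
      · rw [if_neg h, if_neg (fun h' => h (e2.2 h'))]
    · intro b _ hb
      have : dl F g (b⁻¹ * t) = 0 := by
        unfold dl
        rw [if_neg]
        intro h
        apply hb
        rw [← h]
        group
      rw [this, mul_zero]
    · intro h; exact absurd (Finset.mem_univ _) h
    · intro b _ hb
      have : dl F g b = 0 := by
        unfold dl
        rw [if_neg hb]
      rw [this, zero_mul]
    · intro h; exact absurd (Finset.mem_univ _) h
  have hsum : ma (clsum F N x) = ∑ᶠ t, MonoidAlgebra.single t (clsum F N x t) := ma_eq_sum _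
  have := Fintype.ofFinite H
  rw [hsum, finsum_eq_sum_of_fintype]
  apply Commute.sum_left
  intro t _
  by_cases ht : ∃ q ∈ N, t = q * x * q⁻¹
  · have e1 : clsum F N x t = 1 := by unfold clsum; rw [if_pos ht]
    rw [e1]
    apply key
    obtain ⟨q, hq, rfl⟩ := ht
    exact N.mul_mem (N.mul_mem hq hx) (N.inv_mem hq)
  · have e1 : clsum F N x t = 0 := by unfold clsum; rw [if_neg ht]
    rw [e1]
    have e2 : (MonoidAlgebra.single t (0 : F)) = 0 := MonoidAlgebra.single_zero t
    rw [e2]
    exact Commute.zero_left _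

open Classical in
/-- A class function of `N` supported on elements of defect zero is a combination of the class
sums. -/
theorem mem_span_clsum {ℓ : ℕ} {N : Subgroup H} (b : H → F) (hs : ∀ x, x ∉ N → b x = 0)
    (hc : ∀ q ∈ N, ∀ x, b (q * x * q⁻¹) = b x)
    (hd : ∀ x ∈ N, ℓ ∣ Nat.card (Subgroup.centralizer ({x} : Set H) ⊓ N : Subgroup H) → b x = 0) :
    b ∈ Submodule.span F {a | ∃ x ∈ N,
      (¬ ℓ ∣ Nat.card (Subgroup.centralizer ({x} : Set H) ⊓ N : Subgroup H)) ∧
      a = clsum F N x} := by
  have := Fintype.ofFinite H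
  induction hn : (Finset.univ.filter (fun x => b x ≠ 0)).card using Nat.strong_induction_on
    generalizing b with
  | _ n ih =>
    by_cases hz : b = 0
    · rw [hz]; exact Submodule.zero_mem _
    · obtain ⟨x, hx⟩ : ∃ x, b x ≠ 0 := by
        by_contra h
        push Not at h
        exact hz (funext h)
      have hxN : x ∈ N := by
        by_contra h
        exact hx (hs x h)
      have hxd : ¬ ℓ ∣ Nat.card (Subgroup.centralizer ({x} : Set H) ⊓ N : Subgroup H) :=
        fun h => hx (hd x hxN h)
      set b' := b - b x • clsum F N x with hb'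
      have hb'v : ∀ t, b' t = if (∃ q ∈ N, t = q * x * q⁻¹) then 0 else b t := by
        intro t
        rw [hb']
        change b t - b x * clsum F N x t = _
        unfold clsum
        by_cases ht : ∃ q ∈ N, t = q * x * q⁻¹
        · rw [if_pos ht, if_pos ht]
          obtain ⟨q, hq, rfl⟩ := ht
          rw [hc q hq, mul_one, sub_self]
        · rw [if_neg ht, if_neg ht, mul_zero, sub_zero]
      have h1 : b' ∈ Submodule.span F {a | ∃ x ∈ N,
          (¬ ℓ ∣ Nat.card (Subgroup.centralizer ({x} : Set H) ⊓ N : Subgroup H)) ∧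
          a = clsum F N x} := by
        refine ih _ ?_ b' ?_ ?_ ?_ rfl
        · rw [← hn]
          apply Finset.card_lt_card
          rw [Finset.ssubset_iff_of_subset]
          · refine ⟨x, by rw [Finset.mem_filter]; exact ⟨Finset.mem_univ _, hx⟩, ?_⟩
            rw [Finset.mem_filter, not_and]
            intro _ h
            apply h
            rw [hb'v, if_pos ⟨1, N.one_mem, by group⟩]
          · intro t ht
            rw [Finset.mem_filter] at ht ⊢
            refine ⟨ht.1, ?_⟩
            intro h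
            apply ht.2
            rw [hb'v, h, ite_self]
        · intro t ht
          rw [hb'v, hs t ht, ite_self]
        · intro q hq t
          rw [hb'v, hb'v, hc q hq]
          have e2 : (∃ p ∈ N, q * t * q⁻¹ = p * x * p⁻¹) ↔ (∃ p ∈ N, t = p * x * p⁻¹) := by
            constructor
            · rintro ⟨p, hp, h⟩
              refine ⟨q⁻¹ * p, N.mul_mem (N.inv_mem hq) hp, ?_⟩
              have : t = q⁻¹ * (p * x * p⁻¹) * q := by rw [← h]; group
              rw [this]; group
            · rintro ⟨p, hp, h⟩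
              refine ⟨q * p, N.mul_mem hq hp, ?_⟩
              rw [h]; group
          by_cases h : ∃ p ∈ N, t = p * x * p⁻¹
          · rw [if_pos h, if_pos (e2.2 h)]
          · rw [if_neg h, if_neg (fun h' => h (e2.1 h'))]
        · intro t ht h
          rw [hb'v, hd t ht h, ite_self]
      have h2 : b = b' + b x • clsum F N x := by rw [hb']; abel
      rw [h2]
      exact Submodule.add_mem _ h1 (Submodule.smul_mem _ _
        (Submodule.subset_span ⟨x, hxN, hxd, rfl⟩))

/-- A positive idempotent under a combination of class sums of defect zero vanishes. -/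
theorem pos_dzb {ℓ : ℕ} {N : Subgroup H} {e b : H → F} (he : IsIdem e)
    (hp : Pos ℓ e N) (heb : mulF e b = e) (hs : ∀ x, x ∉ N → b x = 0)
    (hc : ∀ q ∈ N, ∀ x, b (q * x * q⁻¹) = b x)
    (hd : ∀ x ∈ N, ℓ ∣ Nat.card (Subgroup.centralizer ({x} : Set H) ⊓ N : Subgroup H) → b x = 0) :
    e = 0 := by
  classical
  set S : Set (H → F) := {a | ∃ x ∈ N,
      (¬ ℓ ∣ Nat.card (Subgroup.centralizer ({x} : Set H) ⊓ N : Subgroup H)) ∧
      a = clsum F N x} with hS
  have hb : b ∈ Submodule.span F S := mem_span_clsum b hs hc hd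
  have hcomm : ∀ u ∈ Submodule.span F S, ∀ v ∈ Submodule.span F S, Commute (ma u) (ma v) := by
    intro u hu v hv
    induction hu using Submodule.span_induction with
    | mem u hu =>
      obtain ⟨x, hx, -, rfl⟩ := hu
      induction hv using Submodule.span_induction with
      | mem v hv =>
        obtain ⟨y, hy, -, rfl⟩ := hv
        exact commute_clsum hx
      | zero => rw [ma_zero]; exact Commute.zero_right _
      | add v w _ _ h1 h2 => rw [ma_add]; exact h1.add_right h2
      | smul c v _ h1 => rw [ma_smul]; exact h1.smul_right c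
    | zero => rw [ma_zero]; exact Commute.zero_left _
    | add u w _ _ h1 h2 => rw [ma_add]; exact h1.add_left h2
    | smul c u _ h1 => rw [ma_smul]; exact h1.smul_left c
  have hec : ∀ x : MonoidAlgebra F H, Commute (ma e) x := fun x => comm_ma he.1 x
  have hnil : ∀ u ∈ Submodule.span F S, IsNilpotent (ma e * ma u) := by
    intro u hu
    induction hu using Submodule.span_induction with
    | mem u hu =>
      obtain ⟨x, hx, hxd, rfl⟩ := hu
      obtain ⟨n, hn⟩ := hp x hx hxd
      refine ⟨n + 1, ?_⟩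
      rw [(hec _).mul_pow, pow_succ (ma (clsum F N x)), ← mul_assoc, pow_succ' (ma e)]
      have h1 : ma (clsum F N x) ^ n * ma e = 0 := by rw [← ma_iterate, hn, ma_zero]
      have h2 : ma e * ma e ^ n * ma (clsum F N x) ^ n =
          ma e ^ n * (ma (clsum F N x) ^ n * ma e) := by
        rw [((hec (ma (clsum F N x) ^ n)).eq).symm, ← mul_assoc, ← pow_succ', ← pow_succ]
      rw [h2, h1, mul_zero, zero_mul]
    | zero => rw [ma_zero, mul_zero]; exact IsNilpotent.zero
    | add u w hu hw h1 h2 =>
      rw [ma_add, mul_add]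
      apply Commute.isNilpotent_add _ h1 h2
      have h3 : Commute (ma u) (ma w) := hcomm u hu w hw
      exact Commute.mul_left ((hec _)) (((hec (ma u)).symm).mul_right h3)
    | smul c u _ h1 =>
      rw [ma_smul, mul_smul_comm]
      exact h1.smul c
  have h1 := hnil b hb
  rw [← ma_mul, heb] at h1
  obtain ⟨n, hn⟩ := h1
  apply ma_injective
  rw [ma_zero]
  rcases Nat.eq_zero_or_pos n with h0 | h0
  · rw [h0, pow_zero] at hn
    rw [← mul_one (ma e), hn, mul_zero]
  · have h2 : IsIdempotentElem (ma e) := ma_idem he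
    rw [← hn]
    exact (h2.pow_eq h0.ne').symm

end alg

end Pool.Agent.PP.H46
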