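import Pool.Agent.Helper46_PP.Alg
import Pool.Agent.Helper96_PP.StmtsA

/-!
# Squad PP, module TOP: blocks of normal subgroups
-/

open scoped BigOperators

noncomputable section

namespace Pool.Agent.PP.H46

open Pool.Agent.Helper51_AWC Pool.Agent.Helper79_WRA Pool.Agent.PP

section blk

variable {F H : Type} [Field F] [Group H] [Finite H]

omit [Finite H] in
theorem ext0_of_mem {N : Subgroup H} (g : N → F) {x : H} (h : x ∈ N) :
    ext0 N g x = g ⟨x, h⟩ := dif_pos h

omit [Finite H] in
theorem ext0_of_not_mem {N : Subgroup H} (g : N → F) {x : H} (h : x ∉ N) :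
    ext0 N g x = 0 := dif_neg h

omit [Finite H] in
theorem ext0_restr {N : Subgroup H} {b : H → F} (hb : ∀ x, x ∉ N → b x = 0) :
    ext0 N (fun t : N => b t) = b := by
  funext x
  by_cases h : x ∈ N
  · rw [ext0_of_mem _ h]
  · rw [ext0_of_not_mem _ h, hb x h]

omit [Finite H] in
theorem restr_ext0 {N : Subgroup H} (g : N → F) : (fun t : N => ext0 N g t) = g := by
  funext t
  rw [ext0_of_mem _ t.2]

omit [Finite H] in
theorem ext0_add {N : Subgroup H} (g h : N → F) : ext0 N (g + h) = ext0 N g + ext0 N h := by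
  funext x
  change _ = ext0 N g x + ext0 N h x
  by_cases hx : x ∈ N
  · rw [ext0_of_mem _ hx, ext0_of_mem _ hx, ext0_of_mem _ hx]; rfl
  · rw [ext0_of_not_mem _ hx, ext0_of_not_mem _ hx, ext0_of_not_mem _ hx, add_zero]

theorem ext0_mul {N : Subgroup H} (g h : N → F) :
    ext0 N (mulF g h) = mulF (ext0 N g) (ext0 N h) := by
  classical
  have := Fintype.ofFinite H
  have := Fintype.ofFinite N
  funext x
  unfold mulF
  rw [finsum_eq_sum_of_fintype]
  have e0 : ∑ t : H, ext0 N g t * ext0 N h (t⁻¹ * x) =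
      ∑ t ∈ Finset.univ.filter (fun t : H => t ∈ N), ext0 N g t * ext0 N h (t⁻¹ * x) := by
    symm
    apply Finset.sum_subset (Finset.filter_subset _ _)
    intro t _ ht
    rw [Finset.mem_filter, not_and] at ht
    rw [ext0_of_not_mem _ (ht (Finset.mem_univ _)), zero_mul]
  have e1 : ∑ t ∈ Finset.univ.filter (fun t : H => t ∈ N), ext0 N g t * ext0 N h (t⁻¹ * x) =
      ∑ t : N, ext0 N g t * ext0 N h ((t : H)⁻¹ * x) := by
    apply Finset.sum_subtype
    intro t
    rw [Finset.mem_filter]
    exact ⟨fun h => h.2, fun h => ⟨Finset.mem_univ _, h⟩⟩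
  rw [e0, e1]
  by_cases hx : x ∈ N
  · rw [ext0_of_mem _ hx, finsum_eq_sum_of_fintype]
    refine Finset.sum_congr rfl fun t _ => ?_
    rw [ext0_of_mem _ t.2, ext0_of_mem _ (N.mul_mem (N.inv_mem t.2) hx)]
    rfl
  · rw [ext0_of_not_mem _ hx]
    symm
    refine Finset.sum_eq_zero fun t _ => ?_
    rw [ext0_of_not_mem (x := (t : H)⁻¹ * x), mul_zero]
    intro h
    apply hx
    have := N.mul_mem t.2 h
    rwa [mul_inv_cancel_left] at this

omit [Finite H] in
theorem ext0_dl (N : Subgroup H) : ext0 N (dl F (1 : N)) = dl F (1 : H) := by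
  classical
  funext x
  by_cases hx : x ∈ N
  · rw [ext0_of_mem _ hx]
    unfold dl
    by_cases h : x = 1
    · subst h
      rw [if_pos rfl, if_pos]
      rfl
    · rw [if_neg h, if_neg]
      intro h'
      exact h (congrArg Subtype.val h')
  · rw [ext0_of_not_mem _ hx]
    unfold dl
    rw [if_neg]
    rintro rfl
    exact hx N.one_mem

/-- There is a block of the subgroup `N` under a nonzero idempotent. -/
theorem exists_blk {e : H → F} (he : e ≠ 0) (N : Subgroup H) :
    ∃ b : H → F, (∀ x, x ∉ N → b x = 0) ∧ IsBlk (fun t : N => b t) ∧ mulF e b ≠ 0 := by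
  by_contra hcon
  push Not at hcon
  have h1 : ∀ g : N → F, IsIdem g → mulF e (ext0 N g) = 0 := by
    apply idem_induction
    · have : ext0 N (0 : N → F) = 0 := by
        funext x
        by_cases hx : x ∈ N
        · rw [ext0_of_mem _ hx]; rfl
        · rw [ext0_of_not_mem _ hx]; rfl
      rw [this, mulF_zero]
    · intro b hb
      apply hcon
      · intro x hx
        exact ext0_of_not_mem _ hx
      · rw [restr_ext0]
        exact hb
    · intro e₁ e₂ _ _ _ h1 h2
      rw [ext0_add, mulF_add, h1, h2, add_zero]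
  have h2 := h1 _ isIdem_one
  rw [ext0_dl, mulF_one] at h2
  exact he h2

/-- A stable block of a normal subgroup is a central idempotent of the whole group ring. -/
theorem isIdem_stable {N : Subgroup H} {b : H → F} (hs : ∀ x, x ∉ N → b x = 0)
    (hb : IsBlk (fun t : N => b t)) (hc : IsCl b) : IsIdem b := by
  refine ⟨hc, ?_⟩
  have h1 := hb.1.2
  have h2 : mulF (ext0 N (fun t : N => b t)) (ext0 N (fun t : N => b t)) =
      ext0 N (fun t : N => b t) := by rw [← ext0_mul, h1]
  rwa [ext0_restr hs] at h2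

/-- A stable block of a normal subgroup under a block of the group. -/
theorem mul_stable {N : Subgroup H} {b e : H → F} (hs : ∀ x, x ∉ N → b x = 0)
    (hb : IsBlk (fun t : N => b t)) (hc : IsCl b) (he : IsBlk e) (h : mulF e b ≠ 0) :
    mulF e b = e :=
  (he.2.2 b (isIdem_stable hs hb hc)).resolve_right h

/-- IDM -/
theorem idm : IdmStmt := by
  intro ℓ F _ _ G _ _ N hN e he hz
  refine ⟨?_, ?_⟩
  · obtain ⟨b, hb1, hb2, hb3⟩ := exists_blk hz N
    refine ⟨fun t : N => b t, hb2, ?_⟩
    rwa [ext0_restr hb1]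
  · intro hB b hb h hst
    apply mul_stable (N := N) (fun x hx => ext0_of_not_mem _ hx) _ _ hB h
    · rw [restr_ext0]; exact hb
    · intro x y
      have : y ∈ stabF (ext0 N b) := by rw [hst]; exact Subgroup.mem_top y
      exact this x

end blk

end Pool.Agent.PP.H46
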