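import Pool.Agent.Helper74_PP.Loc
import Pool.Agent.Helper20_PP.Rst
import Pool.Agent.Helper46_PP.Alg

/-!
# Squad PP: the antipode of a block idempotent and the product of two block idempotents
-/

open scoped BigOperators

set_option linter.unusedSectionVars false

noncomputable section

namespace Pool.Agent.PP.H46

open Pool.Agent.PP

section dual

variable {F H : Type} [Field F] [Group H] [Finite H]

/-- the antipode -/
def dlv (a : H → F) : H → F := fun h => a h⁻¹

theorem dlv_dlv (a : H → F) : dlv (dlv a) = a := by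
  funext h
  simp [dlv]

theorem mulF_dlv (a b : H → F) : mulF (dlv a) (dlv b) = dlv (mulF b a) := by
  have := Fintype.ofFinite H
  funext x
  change ∑ᶠ t, a t⁻¹ * b (t⁻¹ * x)⁻¹ = ∑ᶠ t, b t * a (t⁻¹ * x⁻¹)
  rw [finsum_eq_sum_of_fintype, finsum_eq_sum_of_fintype]
  refine Fintype.sum_equiv (Equiv.mulLeft x⁻¹) _ _ ?_
  intro t
  rw [Equiv.coe_mulLeft, mul_comm]
  congr 2 <;> group

theorem dlv_cl {a : H → F} (ha : IsCl a) : IsCl (dlv a) := by
  intro x y
  unfold dlv
  rw [← ha x⁻¹ y]
  congr 1
  group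

theorem dlv_idem {a : H → F} (ha : IsIdem a) : IsIdem (dlv a) :=
  ⟨dlv_cl ha.1, by rw [mulF_dlv, ha.2]⟩

theorem isBlk_dlv {f : H → F} (hf : IsBlk f) : IsBlk (dlv f) := by
  refine ⟨dlv_idem hf.1, ?_, ?_⟩
  · intro h
    apply hf.2.1
    rw [← dlv_dlv f, h]
    rfl
  · intro g hg
    have h1 : mulF (dlv f) g = dlv (mulF f (dlv g)) := by
      rw [← mulF_dlv, dlv_dlv, mulF_comm hg.1]
    rw [h1]
    rcases hf.2.2 _ (dlv_idem hg) with h2 | h2
    · left
      rw [h2]
    · right
      rw [h2]
      rfl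

end dual

/-! ### residues in a commutative algebra -/

section comm

variable {F R : Type} [Field F] [CommRing R] [Algebra F R] {φ : R}

/-- `z` has a residue -/
def Pr (F : Type) [Field F] {R : Type} [CommRing R] [Algebra F R] (φ z : R) : Prop :=
  ∃ c : F, IsNilpotent (z - c • φ)

theorem Pr.mul (hφ : φ * φ = φ) {z z' : R} (hz' : φ * z' = z') (h1 : Pr F φ z)
    (h2 : Pr F φ z') : Pr F φ (z * z') := by
  obtain ⟨c, hc⟩ := h1
  obtain ⟨d, hd⟩ := h2
  exact ⟨c * d, J74.res_mul hφ hz' hc hd⟩

theorem Pr.add {z z' : R} (h1 : Pr F φ z) (h2 : Pr F φ z') : Pr F φ (z + z') := by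
  obtain ⟨c, hc⟩ := h1
  obtain ⟨d, hd⟩ := h2
  exact ⟨c + d, J74.res_add hc hd⟩

theorem Pr.sum {ι : Type} (s : Finset ι) (z : ι → R) (h : ∀ i ∈ s, Pr F φ (z i)) :
    Pr F φ (∑ i ∈ s, z i) := by
  classical
  induction s using Finset.induction_on with
  | empty => exact ⟨0, by rw [Finset.sum_empty, zero_smul, sub_zero]; exact IsNilpotent.zero⟩
  | insert a s ha ih =>
    rw [Finset.sum_insert ha]
    exact (h a (Finset.mem_insert_self a s)).add
      (ih fun i hi => h i (Finset.mem_insert_of_mem hi))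

theorem idem_nil {e : R} (he : e * e = e) (h : IsNilpotent e) : e = 0 := by
  obtain ⟨n, hn⟩ := h
  have h1 : ∀ n : ℕ, e ^ (n + 1) = e := by
    intro n
    induction n with
    | zero => simp
    | succ n ih => rw [pow_succ, ih, he]
  rw [← h1 n, pow_succ, hn, zero_mul]

theorem idem_cases (hφ : φ * φ = φ) {e : R} (he : e * e = e) (h : φ * e = e) (hp : Pr F φ e) :
    e = φ ∨ e = 0 := by
  obtain ⟨c, hc⟩ := hp
  by_cases h1 : c = 1
  · left
    rw [h1, one_smul] at hc
    have h2 : IsNilpotent (φ - e) := by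
      have h3 := hc.neg
      rwa [neg_sub] at h3
    have h3 : (φ - e) * (φ - e) = φ - e := by
      have h4 : e * φ = e := by rw [mul_comm, h]
      rw [sub_mul, mul_sub, mul_sub, hφ, h, he, h4, sub_self, sub_zero]
    exact (sub_eq_zero.1 (idem_nil h3 h2)).symm
  · right
    have h2 : IsNilpotent (e * (e - c • φ)) := (Commute.all _ _).isNilpotent_mul_left hc
    have h3 : e * (e - c • φ) = (1 - c) • e := by
      rw [mul_sub, he, mul_smul_comm, mul_comm e φ, h, sub_smul, one_smul]
    rw [h3] at h2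
    have h4 : (1 - c) ≠ 0 := fun h' => h1 (sub_eq_zero.1 h').symm
    have h5 := h2.smul (1 - c)⁻¹
    rw [smul_smul, inv_mul_cancel₀ h4, one_smul] at h5
    exact idem_nil he h5

end comm

/-! ### products -/

section prod

variable {F H K : Type} [Field F] [Group H] [Group K] [Finite H] [Finite K]

/-- the product of two functions -/
def box (a : H → F) (b : K → F) : H × K → F := fun p => a p.1 * b p.2

theorem mulF_box (a a' : H → F) (b b' : K → F) :
    mulF (box a b) (box a' b') = box (mulF a a') (mulF b b') := by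
  have := Fintype.ofFinite H
  have := Fintype.ofFinite K
  funext x
  change ∑ᶠ p : H × K, a p.1 * b p.2 * (a' (p.1⁻¹ * x.1) * b' (p.2⁻¹ * x.2)) =
    (∑ᶠ s, a s * a' (s⁻¹ * x.1)) * ∑ᶠ t, b t * b' (t⁻¹ * x.2)
  rw [finsum_eq_sum_of_fintype, finsum_eq_sum_of_fintype, finsum_eq_sum_of_fintype,
    Fintype.sum_prod_type, Finset.sum_mul_sum]
  apply Finset.sum_congr rfl
  intro s _
  apply Finset.sum_congr rfl
  intro t _
  ring

theorem box_cl {a : H → F} {b : K → F} (ha : IsCl a) (hb : IsCl b) : IsCl (box a b) := by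
  intro x y
  change a (y.1 * x.1 * y.1⁻¹) * b (y.2 * x.2 * y.2⁻¹) = a x.1 * b x.2
  rw [ha, hb]

theorem box_iter (a : H → F) (b : K → F) (n : ℕ) : (mulF (box a b))^[n] (box a b) =
    box ((mulF a)^[n] a) ((mulF b)^[n] b) := by
  induction n with
  | zero => rfl
  | succ n ih => rw [Function.iterate_succ_apply', ih, mulF_box, Function.iterate_succ_apply',
      Function.iterate_succ_apply']

theorem box_nil_left {a : H → F} (b : K → F) (h : ∃ n : ℕ, ma a ^ n = 0) :
    ∃ n : ℕ, ma (box a b) ^ n = 0 := by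
  obtain ⟨n, hn⟩ := (J74.nil_iff a).2 h
  rw [← J74.nil_iff]
  refine ⟨n, ?_⟩
  rw [box_iter, hn]
  funext x
  change (0 : F) * _ = 0
  rw [zero_mul]

theorem box_nil_right (a : H → F) {b : K → F} (h : ∃ n : ℕ, ma b ^ n = 0) :
    ∃ n : ℕ, ma (box a b) ^ n = 0 := by
  obtain ⟨n, hn⟩ := (J74.nil_iff b).2 h
  rw [← J74.nil_iff]
  refine ⟨n, ?_⟩
  rw [box_iter, hn]
  funext x
  change _ * (0 : F) = 0
  rw [mul_zero]

/-- a class function as an element of the commutative algebra -/
def zz {G : Type} [Group G] [Finite G] (u : G → F) (hu : IsCl u) : J74.ZY F (⊤ : Subgroup G) :=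
  ⟨ma u, (J74.mem_ZY u).2 ⟨fun _ hh => absurd trivial hh, fun n _ h => hu h n⟩⟩

theorem sblk_top {f : H → F} (hf : IsBlk f) : SBlk (⊤ : Subgroup H) f :=
  ⟨fun _ hx => absurd trivial hx, hf.1.1, H20.IsBlk_equiv Subgroup.topEquiv hf⟩

theorem mulF_cl {G : Type} [Group G] [Finite G] {a b : G → F} (ha : IsCl a) (hb : IsCl b) :
    IsCl (mulF a b) := by
  have h := J74.inv_mulF (Y := (⊤ : Subgroup G)) (u := a) (v := b) (fun n _ h => ha h n)
    (fun n _ h => hb h n)
  exact fun x y => h y trivial x

/-- the residue of `f a` at the block `f` -/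
theorem blk_res (hF : IsAlgClosed F) {f : H → F} (hf : IsBlk f) {a : H → F} (ha : IsCl a) :
    ∃ c : F, ∃ n : ℕ, ma (mulF f a - c • f) ^ n = 0 := by
  have hz : CE f (⊤ : Subgroup H) 1 (mulF f a) := by
    refine ⟨fun h hh => absurd trivial hh, fun n _ h => mulF_cl hf.1.1 ha h n, ?_⟩
    rw [← mulF_assoc, hf.1.2]
  obtain ⟨c, hc⟩ := J74.res_exists hF (sblk_top hf) hz
  rw [J74.isRes_iff] at hc
  refine ⟨c, ?_⟩
  rwa [ma_sub, ma_smul]

theorem smul_box (c : F) (a : H → F) (b : K → F) : box (c • a) b = c • box a b := by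
  funext x
  change c * a x.1 * b x.2 = c * (a x.1 * b x.2)
  ring

theorem box_smul (c : F) (a : H → F) (b : K → F) : box a (c • b) = c • box a b := by
  funext x
  change a x.1 * (c * b x.2) = c * (a x.1 * b x.2)
  ring

theorem box_sub (a : H → F) (b b' : K → F) : box a (b - b') = box a b - box a b' := by
  funext x
  change a x.1 * (b x.2 - b' x.2) = a x.1 * b x.2 - a x.1 * b' x.2
  ring

theorem sub_box (a a' : H → F) (b : K → F) : box (a - a') b = box a b - box a' b := by
  funext x
  change (a x.1 - a' x.1) * b x.2 = a x.1 * b x.2 - a' x.1 * b x.2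
  ring

theorem Pr_of {G : Type} [Group G] [Finite G] {u φ : G → F} (hu : IsCl u) (hφ : IsCl φ) {c : F}
    (h : ∃ n : ℕ, ma (u - c • φ) ^ n = 0) : Pr F (zz φ hφ) (zz u hu) := by
  refine ⟨c, ?_⟩
  rw [J74.nil_zy]
  change IsNilpotent (ma u - c • ma φ)
  rw [← ma_smul, ← ma_sub]
  exact h

/-- PROD: the product of two block idempotents is a block idempotent. -/
theorem isBlk_box (hF : IsAlgClosed F) {f : H → F} {g : K → F} (hf : IsBlk f) (hg : IsBlk g) :
    IsBlk (box f g) := by
  classical
  have hid : IsIdem (box f g) := ⟨box_cl hf.1.1 hg.1.1, by rw [mulF_box, hf.1.2, hg.1.2]⟩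
  refine ⟨hid, ?_, ?_⟩
  · intro h
    obtain ⟨x, hx⟩ := Function.ne_iff.1 hf.2.1
    obtain ⟨y, hy⟩ := Function.ne_iff.1 hg.2.1
    have := congrFun h (x, y)
    rcases mul_eq_zero.1 this with h1 | h1
    · exact hx h1
    · exact hy h1
  · intro e he
    have := Fintype.ofFinite (ConjClasses K)
    -- the pieces
    let A : ConjClasses K → H → F := fun c x => e (x, Quotient.out c)
    let B : ConjClasses K → K → F := fun c y => if ConjClasses.mk y = c then 1 else 0
    have hA : ∀ c, IsCl (A c) := by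
      intro c x y
      have := he.1 (x, Quotient.out c) (y, 1)
      simpa [A] using this
    have hB : ∀ c, IsCl (B c) := by
      intro c x y
      have : ConjClasses.mk (y * x * y⁻¹) = ConjClasses.mk x := by
        rw [ConjClasses.mk_eq_mk_iff_isConj]
        exact (isConj_iff.2 ⟨y, rfl⟩).symm
      change (if ConjClasses.mk (y * x * y⁻¹) = c then (1 : F) else 0) = if _ then _ else _
      rw [this]
    have hdec : e = ∑ c : ConjClasses K, box (A c) (B c) := by
      funext p
      obtain ⟨x, y⟩ := p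
      rw [Finset.sum_apply, Finset.sum_eq_single (ConjClasses.mk y)]
      · change e (x, y) = e (x, Quotient.out (ConjClasses.mk y)) *
          (if ConjClasses.mk y = ConjClasses.mk y then 1 else 0)
        rw [if_pos rfl, mul_one]
        have h1 : ConjClasses.mk (Quotient.out (ConjClasses.mk y)) = ConjClasses.mk y :=
          Quotient.out_eq _
        rw [ConjClasses.mk_eq_mk_iff_isConj] at h1
        obtain ⟨k, hk⟩ := isConj_iff.1 h1
        have h2 := he.1 (x, Quotient.out (ConjClasses.mk y)) (1, k)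
        rw [← h2]
        congr 1
        exact Prod.ext (by simp) hk.symm
      · intro c _ hc
        change e (x, Quotient.out c) * (if ConjClasses.mk y = c then 1 else 0) = 0
        rw [if_neg hc.symm, mul_zero]
      · intro h
        exact absurd (Finset.mem_univ _) h
    have hmul : ∀ c, mulF (box f g) (box (A c) (B c)) =
        mulF (box (mulF f (A c)) g) (box f (mulF g (B c))) := by
      intro c
      rw [mulF_box, mulF_box, mulF_comm hf.1.1 (A c), mulF_assoc, hf.1.2, ← mulF_assoc g g,
        hg.1.2]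
    let φ := zz (box f g) hid.1
    have hφ : φ * φ = φ := by
      apply Subtype.ext
      change ma (box f g) * ma (box f g) = ma (box f g)
      rw [← ma_mul, hid.2]
    have hcl1 : ∀ c, IsCl (box (mulF f (A c)) g) := fun c =>
      box_cl (mulF_cl hf.1.1 (hA c)) hg.1.1
    have hcl2 : ∀ c, IsCl (box f (mulF g (B c))) := fun c =>
      box_cl hf.1.1 (mulF_cl hg.1.1 (hB c))
    have hP1 : ∀ c, Pr F φ (zz _ (hcl1 c)) := by
      intro c
      obtain ⟨d, hd⟩ := blk_res hF hf (hA c)
      apply Pr_of (c := d)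
      rw [← smul_box, ← sub_box]
      exact box_nil_left g hd
    have hP2 : ∀ c, Pr F φ (zz _ (hcl2 c)) := by
      intro c
      obtain ⟨d, hd⟩ := blk_res hF hg (hB c)
      apply Pr_of (c := d)
      rw [← box_smul, ← box_sub]
      exact box_nil_right f hd
    have habs : ∀ c, φ * zz _ (hcl2 c) = zz _ (hcl2 c) := by
      intro c
      apply Subtype.ext
      change ma (box f g) * ma (box f (mulF g (B c))) = ma (box f (mulF g (B c)))
      rw [← ma_mul, mulF_box, hf.1.2, ← mulF_assoc, hg.1.2]
    have hcle : IsCl (mulF (box f g) e) := mulF_cl hid.1 he.1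
    have hsum : zz _ hcle = ∑ c : ConjClasses K, zz _ (hcl1 c) * zz _ (hcl2 c) := by
      apply Subtype.ext
      rw [AddSubmonoidClass.coe_finsetSum]
      change ma (mulF (box f g) e) = ∑ c : ConjClasses K,
        ma (box (mulF f (A c)) g) * ma (box f (mulF g (B c)))
      conv_lhs => rw [hdec, ma_mul]
      have h1 : ma (∑ c : ConjClasses K, box (A c) (B c)) =
          ∑ c : ConjClasses K, ma (box (A c) (B c)) := map_sum maL _ _
      rw [h1, Finset.mul_sum]
      apply Finset.sum_congr rfl
      intro c _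
      rw [← ma_mul, ← ma_mul, hmul]
    have hPe : Pr F φ (zz _ hcle) := by
      rw [hsum]
      apply Pr.sum
      intro c _
      exact (hP1 c).mul hφ (habs c) (hP2 c)
    have hee : zz _ hcle * zz _ hcle = zz _ hcle := by
      apply Subtype.ext
      change ma (mulF (box f g) e) * ma (mulF (box f g) e) = ma (mulF (box f g) e)
      rw [← ma_mul, (isIdem_mul hid he).2]
    have hpe : φ * zz _ hcle = zz _ hcle := by
      apply Subtype.ext
      change ma (box f g) * ma (mulF (box f g) e) = ma (mulF (box f g) e)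
      rw [← ma_mul, ← mulF_assoc, hid.2]
    rcases idem_cases hφ hee hpe hPe with h | h
    · left
      exact ma_injective (congrArg Subtype.val h)
    · right
      apply ma_injective
      rw [ma_zero]
      exact congrArg Subtype.val h

end prod

end Pool.Agent.PP.H46
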