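import Pool.Agent.Helper46_PP.Db1e

/-!
# Squad PP, module DB1 (AWC_J 7.4, 7.5): the double and the idempotent `E₀`
-/

open scoped BigOperators

set_option linter.unusedSectionVars false

noncomputable section

namespace Pool.Agent.PP.H46

open Pool.Agent.PP

variable {F X : Type} [Field F] [Group X] [Finite X] {Y : Subgroup X} [hY : Y.Normal]
  {f : X → F} {H : Subgroup (X ⧸ Y)} [Fintype H] {E : Lam Y → F} {ℓ : ℕ}

section fin

variable {n : ℕ} {w : (Lam Y → F) →ₗ[F] F}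

theorem w_sel (hF : IsAlgClosed F) (hf : SBlk Y f) (hH : H ≤ Jb f Y)
    (hc : (Fintype.card H : F) ≠ 0) (hw : IsW f Y w) : w (sel f Y H) = 1 := by
  unfold sel
  rw [map_smul, map_sum]
  have h1 : ∀ q : H, w (sg f Y (q : X ⧸ Y)) = 1 := fun q => w_sg hF hf hw (hH q.2)
  simp_rw [h1]
  rw [Finset.sum_const, Finset.card_univ, nsmul_eq_mul, mul_one, smul_eq_mul, inv_mul_cancel₀ hc]

theorem w_E (hF : GoodF ℓ F) (hf : SBlk Y f) (hE : IsE f Y H E)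
    (hc : (Fintype.card H : F) ≠ 0) (hw : IsW f Y w) : w E = 1 := by
  have h1 := W_J1 hF hf (W0_irr hF.closed hf hw) (E_DE hE) (sel_DE hf hE.le) hE.sub
  rw [W0_apply, W0_apply, w_sel hF.closed hf hE.le hc hw] at h1
  have h2 := congrFun (congrFun h1 0) 0
  simpa using h2

/-- the character `ω₀` -/
def om0 (f : X → F) (Y : Subgroup X) [Y.Normal] (w : (Lam Y → F) →ₗ[F] F) : (Lam Y → F) → F :=
  H58.omW (sig Y f f) (YY2 Y) (fstP Y (XF f Y)) (W0 w)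

theorem om0_apply {d : Lam Y → F} (hd : DE (sig Y f f) (YY2 Y) (fstP Y (XF f Y)) d) :
    om0 f Y w d = w d := by
  unfold om0
  rw [H58.omW_of hd, W0_apply, Matrix.trace_smul, Matrix.trace_one]
  simp

theorem om0_E (hF : GoodF ℓ F) (hf : SBlk Y f) (hE : IsE f Y H E)
    (hc : (Fintype.card H : F) ≠ 0) (hw : IsW f Y w) {d : Lam Y → F}
    (hd : DE (sig Y f f) (YY2 Y) (fstP Y (XF f Y)) d) :
    om0 f Y w (mulF E d) = om0 f Y w d := by
  rw [om0_apply hd, om0_apply (H76.DE.mul (E_DE hE) hd), w_mul hF.closed hf hw (E_DE hE) hd,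
    w_E hF hf hE hc hw, one_mul]

theorem om0_mem (hF : GoodF ℓ F) (hf : SBlk Y f) (hE : IsE f Y H E)
    (hc : (Fintype.card H : F) ≠ 0) (hw : IsW f Y w) (p q : Lam Y) :
    om0 f Y w ∈ omS (sig Y f f) (YY2 Y) (fstP Y (XF f Y)) E p q := by
  have hg := sblk_sig (Y := Y) hF.closed hf
  refine ⟨⟨1, W0 w, W0_irr hF.closed hf hw, rfl⟩, fun d hd => om0_E hF hf hE hc hw hd,
    fun d hd => ?_, fun d hd => ?_⟩
  · rw [om0_apply hd, om0_apply (H58.DE_cj hg normal_YY2 (M_normal hf) hd p),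
      w_cj hF.closed hf hw p hd]
  · rw [om0_apply hd, om0_apply (H58.DE_cj hg normal_YY2 (M_normal hf) hd q),
      w_cj hF.closed hf hw q hd]

theorem W_E' {m : ℕ} {W : (Lam Y → F) →ₗ[F] Matrix (Fin m) (Fin m) F}
    (hW : IrrD (sig Y f f) (YY2 Y) (fstP Y (XF f Y)) W) (hE : IsE f Y H E)
    (hω : ∀ d, DE (sig Y f f) (YY2 Y) (fstP Y (XF f Y)) d →
      H58.omW (sig Y f f) (YY2 Y) (fstP Y (XF f Y)) W (mulF E d) =
        H58.omW (sig Y f f) (YY2 Y) (fstP Y (XF f Y)) W d) : W E = 1 := by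
  apply W_E hW hE
  intro d hd
  have h := hω d hd
  rwa [H58.omW_of hd, H58.omW_of (H76.DE.mul (E_DE hE) hd)] at h

theorem omS_eq (hF : GoodF ℓ F) (hf : SBlk Y f) (hE : IsE f Y H E)
    (hc : (Fintype.card H : F) ≠ 0) (hn : H.Normal) (hp : ∀ q ∈ Jb f Y, q ^ (ℓ ^ n) ∈ H)
    (hw : IsW f Y w) (p q : Lam Y) :
    omS (sig Y f f) (YY2 Y) (fstP Y (XF f Y)) E p q = {om0 f Y w} := by
  apply Set.eq_singleton_iff_unique_mem.2
  refine ⟨om0_mem hF hf hE hc hw p q, ?_⟩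
  rintro ω ⟨⟨m, W, hW, hωW⟩, hω, -, -⟩
  have hωW' : ω = H58.omW (sig Y f f) (YY2 Y) (fstP Y (XF f Y)) W := hωW
  rw [hωW'] at hω ⊢
  have h1 := W_E' hW hE hω
  have hm := m_one hF hf hW hE h1 hn hp hw
  subst hm
  funext d
  by_cases hd : DE (sig Y f f) (YY2 Y) (fstP Y (XF f Y)) d
  · rw [H58.omW_of hd, om0_apply hd, W_eq hF hf hW hE h1 hn hp hw hd, Matrix.trace_smul,
      Matrix.trace_one]
    simp
  · unfold om0
    rw [H58.omW_not hd, H58.omW_not hd]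

theorem w_sig (hF : IsAlgClosed F) (hf : SBlk Y f) (hw : IsW f Y w) {p : Lam Y} {v v' : X → F}
    (h : IsUnitOver f Y p.1.1 v v') : DE (sig Y f f) (YY2 Y) (fstP Y (XF f Y)) (sig Y v v') ∧
      w (sig Y v v') = 1 := by
  have hp : p ∈ fstP Y (XF f Y) := (J74.mem_XF hY hf _).2 ⟨_, _, h⟩
  have h1 := (unit_sig hf h).left
  have h2 := w_J1 hF hf hw hp (h1.sub (sg_unit hf hp).left) (sg_can hF hf h)
  have hj : (p.1.1 : X ⧸ Y) ∈ Jb f Y := ⟨_, hp, rfl⟩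
  rw [map_sub, w_sg hF hf hw hj, sub_eq_zero] at h2
  exact ⟨H58.CE_DE (N_le_M hf) hp h1, h2⟩

theorem sW_eq (hF : GoodF ℓ F) (hf : SBlk Y f) (hE : IsE f Y H E)
    (hc : (Fintype.card H : F) ≠ 0) (hn : H.Normal) (hp : ∀ q ∈ Jb f Y, q ^ (ℓ ^ n) ∈ H)
    (hw : IsW f Y w) (p q : Lam Y) {v v' : X → F}
    (h : IsUnitOver f Y (p.1.1 * q.1.1 * p.1.1⁻¹ * q.1.1⁻¹) v v') :
    sW (sig Y f f) (YY2 Y) (fstP Y (XF f Y)) (om0 f Y w) p q (sig Y v v') = 1 := by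
  classical
  obtain ⟨hd, hu⟩ := w_sig (p := p * q * p⁻¹ * q⁻¹) hF.closed hf hw h
  have hex : IsSW (sig Y f f) (YY2 Y) (fstP Y (XF f Y)) (om0 f Y w) p q (sig Y v v') 1 := by
    refine ⟨1, W0 w, 1, 1, W0_irr hF.closed hf hw, rfl, ⟨isUnit_one, fun d hd => ?_⟩,
      ⟨isUnit_one, fun d hd => ?_⟩, ?_⟩
    · rw [one_mul, mul_one, W0_apply, W0_apply, w_cj hF.closed hf hw p hd]
    · rw [one_mul, mul_one, W0_apply, W0_apply, w_cj hF.closed hf hw q hd]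
    · rw [W0_apply, hu, one_smul, one_smul, one_mul, mul_one]
  have huni : ∀ c, IsSW (sig Y f f) (YY2 Y) (fstP Y (XF f Y)) (om0 f Y w) p q (sig Y v v') c →
      c = 1 := by
    rintro c ⟨m, W, A, B, hW, hωW, hA, hB, hAB⟩
    have hωW' : om0 f Y w = H58.omW (sig Y f f) (YY2 Y) (fstP Y (XF f Y)) W := hωW
    have h1 : W E = 1 := by
      apply W_E' hW hE
      intro d hd
      rw [← hωW', om0_E hF hf hE hc hw hd]
    have hm := m_one hF hf hW hE h1 hn hp hw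
    subst hm
    rw [W_eq hF hf hW hE h1 hn hp hw hd, hu, one_smul, one_mul] at hAB
    have h2 : A * B = B * A := by
      ext i j
      fin_cases i
      fin_cases j
      simp [Matrix.mul_apply, mul_comm]
    rw [h2] at hAB
    obtain ⟨U, hU⟩ := hB.1.mul hA.1
    rw [← hU] at hAB
    have h3 : (1 : Matrix (Fin 1) (Fin 1) F) = c • 1 := by
      have h4 : (U : Matrix (Fin 1) (Fin 1) F) * (↑U⁻¹ : Matrix (Fin 1) (Fin 1) F) =
          (c • (U : Matrix (Fin 1) (Fin 1) F)) * (↑U⁻¹ : Matrix (Fin 1) (Fin 1) F) :=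
        congrArg (fun Z => Z * (↑U⁻¹ : Matrix (Fin 1) (Fin 1) F)) hAB
      rwa [Matrix.smul_mul, Units.mul_inv] at h4
    have h4 := congrFun (congrFun h3 0) 0
    simpa using h4.symm
  unfold sW
  rw [dif_pos ⟨1, hex⟩]
  exact huni _ (Exists.choose_spec (⟨1, hex⟩ :
    ∃ c, IsSW (sig Y f f) (YY2 Y) (fstP Y (XF f Y)) (om0 f Y w) p q (sig Y v v') c))

end fin

/-- **DB1** -/
theorem db1 : Db1Stmt := by
  intro ℓ F _ hF τ hτ X _ _ Y _ f hf hnil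
  refine ⟨sblk_sig hF.closed hf, fun v v' p h => unit_sig hf h, ?_⟩
  obtain ⟨m, hm⟩ := hnil
  have hm' : Subgroup.lowerCentralSeries (Jb f Y) m = ⊥ := by
    have h1 := Subgroup.map_lowerCentralSeries (XF f Y) (QuotientGroup.mk' Y) m
    unfold Jb
    rw [← h1, Subgroup.map_eq_bot_iff, QuotientGroup.ker_mk']
    exact hm
  have hl : Fact ℓ.Prime := ⟨hF.prime⟩
  have hch := hF.char
  obtain ⟨H, hn, hH, hc, n, hp⟩ := nil_part (Jb_normal hf) hm' ℓ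
  have := Fintype.ofFinite H
  have hc' : (Fintype.card H : F) ≠ 0 := by
    rw [← Nat.card_eq_fintype_card]
    intro h
    exact hc ((CharP.cast_eq_zero_iff F ℓ _).1 h)
  obtain ⟨E, hE1, hE2, hE3, hE4⟩ := exists_E hF hf hH hn hc'
  obtain ⟨w, hw⟩ := exists_w (Y := Y) hF.closed hf
  have hE : IsE f Y H E := ⟨hH, hE1, hE2, hE3, hE4⟩
  refine ⟨E, hE1, hE3, hE2, fun p q v v' h => ?_⟩
  unfold BB
  rw [omS_eq hF hf hE hc' hn hp hw p q, finsum_mem_singleton,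
    sW_eq hF hf hE hc' hn hp hw p q h, hτ.one]

end Pool.Agent.PP.H46
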