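import Pool.Agent.Helper96_PP.StmtsA
import Pool.Agent.Helper18_PP.StmtsDZ
import Pool.Agent.Helper36_PP.Involves

/-!
# Squad PP, part A: the statements used by the master induction (AWC_A, A4)
-/

open scoped BigOperators

noncomputable section

namespace Pool.Agent.PP

open Pool.Agent.Helper51_AWC Pool.Agent.Helper79_WRA

/-- The hypothesis of the main theorem: for every nonabelian simple group `S` of order divisible by
`ℓ` that is involved in `N` and every finite group `D` with `O_ℓ(D) = 1`, such that `D / Z(D)` is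
almost simple with socle `S` and the outer part is a nilpotent group of order prime to `ℓ`, and
such that `D / Z(D)` is involved in `H`, the alternating sum vanishes for all central idempotents
`e` of positive defect of `F D` that lie over a faithful character of `Z(D)`. -/
def GoodP (ℓ : ℕ) (F : Type) [Field F] {H : Type} [Group H] (N : Subgroup H) : Prop :=
  ∀ (S : Type) [Group S] [Finite S], NonabSimple S → ℓ ∣ Nat.card S → Involves N S →
  ∀ (D : Type) [Group D] [Finite D], opCore ℓ D = ⊥ → NearlySimpleL ℓ D S →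
  Involves H (D ⧸ Subgroup.center D) → ∀ e : D → F, IsIdem e →
  (∀ z ∈ Subgroup.center D, z ≠ 1 → ∃ c : F, c ≠ 1 ∧ ∀ x, e (z * x) = c * e x) →
  Pos ℓ e ⊤ → YY ℓ ⊤ e = 0

/-- `Y(H,N)`: the relative alternating sum vanishes for all central idempotents `e` of `FH` with
`Pos(e,N)`. -/
def YH (ℓ : ℕ) (F : Type) [Field F] {H : Type} [Group H] [Finite H] (N : Subgroup H) : Prop :=
  ∀ e : H → F, IsIdem e → Pos ℓ e N → YY ℓ N e = 0

/-- `Y_m`: the statement `Y(H,N)` for all pairs with `|N : N ∩ Z(H)| < m` for which the hypothesis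
on the involved simple groups holds. -/
def Ylt (ℓ : ℕ) (F : Type) [Field F] (m : ℕ) : Prop :=
  ∀ (H : Type) [Group H] [Finite H] (N : Subgroup H), N.Normal → mu N < m → GoodP ℓ F N →
    YH ℓ F N

/-- FR (A6): the theorem of Fong and Reynolds. -/
def FrStmt : Prop := ∀ (ℓ : ℕ) [Fact ℓ.Prime] (F : Type) [Field F], GoodF ℓ F →
  ∀ (G : Type) [Group G] [Finite G] (N R : Subgroup G), N.Normal → R.Normal → N ≤ R →
  ∀ e : G → F, IsBlk e → Pos ℓ e R → ∀ b : G → F, (∀ x, x ∉ N → b x = 0) →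
  IsBlk (fun t : N => b t) → mulF e b ≠ 0 →
  ∀ T : Subgroup G, (∀ g, g ∈ T ↔ ∀ x, b (g * x * g⁻¹) = b x) →
    (∀ x, x ∉ T → mulF e b x = 0) ∧ IsIdem (fun t : T => mulF e b t) ∧
    Pos ℓ (fun t : T => mulF e b t) (R.subgroupOf T) ∧
    YY ℓ R e = (T.index : ℤ) * YY ℓ (R.subgroupOf T) (fun t : T => mulF e b t)

/-- S1 (A5): the case of a simple chief factor. -/
def S1Stmt : Prop := ∀ (ℓ : ℕ) [Fact ℓ.Prime] (F : Type) [Field F], GoodF ℓ F →
  ∀ (G : Type) [Group G] [Finite G] (N : Subgroup G), N.Normal → opCore ℓ N = ⊥ →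
  NASimple (N ⧸ (Subgroup.center G).subgroupOf N) → GoodP ℓ F N → Ylt ℓ F (mu N) → YH ℓ F N

/-- S1n: the same with the additional hypothesis that `G / (N C_G(N))` is nilpotent. -/
def S1nStmt : Prop := ∀ (ℓ : ℕ) [Fact ℓ.Prime] (F : Type) [Field F], GoodF ℓ F →
  ∀ (G : Type) [Group G] [Finite G] (N : Subgroup G), N.Normal → opCore ℓ N = ⊥ →
  NASimple (N ⧸ (Subgroup.center G).subgroupOf N) → NilOut N → GoodP ℓ F N → Ylt ℓ F (mu N) →
  YH ℓ F N

/-- R2: the case of a nonabelian chief factor that is not simple. -/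
def R2Stmt : Prop := ∀ (ℓ : ℕ) [Fact ℓ.Prime] (F : Type) [Field F], GoodF ℓ F →
  ∀ (G : Type) [Group G] [Finite G] (N : Subgroup G), Chief N → opCore ℓ N = ⊥ →
  (∃ x ∈ N, ∃ y ∈ N, x * y * x⁻¹ * y⁻¹ ∉ Subgroup.center G) →
  ¬ IsSimpleGroup (N ⧸ (Subgroup.center G).subgroupOf N) → GoodP ℓ F N → Ylt ℓ F (mu N) →
  ∀ e : G → F, IsBlk e → Pos ℓ e N → ∀ b : N → F, IsBlk b → stabF (ext0 N b) = ⊤ →
    mulF e (ext0 N b) = e → YY ℓ N e = 0

/-- TOP (A4): the main theorem, `Y(H,N)` for all finite groups `H` and normal subgroups `N` such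
that `GoodP` holds for `N ≤ H`. -/
def MainStmt : Prop := ∀ (ℓ : ℕ) [Fact ℓ.Prime] (F : Type) [Field F], GoodF ℓ F →
  ∀ (H : Type) [Group H] [Finite H] (N : Subgroup H), N.Normal → GoodP ℓ F N → YH ℓ F N

end Pool.Agent.PP
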