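import Pool.Agent.Helper46_PP.BlkProd
import Pool.Agent.Helper74_PP.Xfs

/-!
# Squad PP, module DB1 (AWC_J 7.4): the double
-/

open scoped BigOperators

set_option linter.unusedSectionVars false

noncomputable section

namespace Pool.Agent.PP.H46

open Pool.Agent.PP

variable {F X : Type} [Field F] [Group X] [Finite X] {Y : Subgroup X} [hY : Y.Normal]

theorem sum_Lam [Fintype X] [Fintype (Lam Y)] (φ : X × X → F)
    (h : ∀ p : X × X, p ∉ Lam Y → φ p = 0) : ∑ q : Lam Y, φ q.1 = ∑ p : X × X, φ p := by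
  refine Fintype.sum_of_injective (fun q : Lam Y => q.1) Subtype.val_injective _ _ ?_ ?_
  · intro p hp
    apply h
    intro hp'
    exact hp ⟨⟨p, hp'⟩, rfl⟩
  · intro q
    rfl

/-- the product of two elements `v ⊗ S(v')` -/
theorem sig_mul {a : X} {u u' : X → F} (w w' : X → F) (hu : ∀ h, a⁻¹ * h ∉ Y → u h = 0)
    (hu' : ∀ h, a * h ∉ Y → u' h = 0) :
    mulF (sig Y u u') (sig Y w w') = sig Y (mulF u w) (mulF w' u') := by
  have := Fintype.ofFinite X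
  have := Fintype.ofFinite (Lam Y)
  funext g
  change ∑ᶠ q : Lam Y, u q.1.1 * u' (q.1.2)⁻¹ * (w (q.1.1⁻¹ * g.1.1) * w' (q.1.2⁻¹ * g.1.2)⁻¹) =
    (∑ᶠ s, u s * w (s⁻¹ * g.1.1)) * ∑ᶠ t, w' t * u' (t⁻¹ * (g.1.2)⁻¹)
  rw [finsum_eq_sum_of_fintype, finsum_eq_sum_of_fintype, finsum_eq_sum_of_fintype]
  have h1 := sum_Lam (Y := Y) (fun p : X × X =>
    u p.1 * u' (p.2)⁻¹ * (w (p.1⁻¹ * g.1.1) * w' (p.2⁻¹ * g.1.2)⁻¹)) (by
      intro p hp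
      by_cases h1 : a⁻¹ * p.1 ∈ Y
      · by_cases h2 : a * p.2⁻¹ ∈ Y
        · exfalso
          apply hp
          change p.1⁻¹ * p.2 ∈ Y
          have h3 := hY.conj_mem _ (Y.inv_mem h2) a⁻¹
          have h4 := Y.mul_mem (Y.inv_mem h1) h3
          have e : (a⁻¹ * p.1)⁻¹ * (a⁻¹ * (a * p.2⁻¹)⁻¹ * a⁻¹⁻¹) = p.1⁻¹ * p.2 := by group
          rwa [e] at h4
        · simp only [hu' _ h2, mul_zero, zero_mul]
      · simp only [hu _ h1, zero_mul])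
  rw [h1, Fintype.sum_prod_type, Finset.sum_mul_sum]
  apply Finset.sum_congr rfl
  intro s _
  refine Fintype.sum_equiv (Equiv.mulLeft (g.1.2)⁻¹) _ _ ?_
  intro t
  rw [Equiv.coe_mulLeft]
  have e1 : ((g.1.2)⁻¹ * t)⁻¹ * (g.1.2)⁻¹ = t⁻¹ := by group
  have e2 : (t⁻¹ * g.1.2)⁻¹ = (g.1.2)⁻¹ * t := by group
  change u s * u' t⁻¹ * (w (s⁻¹ * g.1.1) * w' (t⁻¹ * g.1.2)⁻¹) = _
  rw [e1, e2]
  ring

theorem sig_supp {a : X} {u u' : X → F} (hu : ∀ h, a⁻¹ * h ∉ Y → u h = 0)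
    (hu' : ∀ h, a * h ∉ Y → u' h = 0) (g : Lam Y) (h : sig Y u u' g ≠ 0) :
    a⁻¹ * g.1.1 ∈ Y ∧ a⁻¹ * g.1.2 ∈ Y := by
  have h1 : u g.1.1 ≠ 0 := left_ne_zero_of_mul h
  have h2 : u' (g.1.2)⁻¹ ≠ 0 := right_ne_zero_of_mul h
  refine ⟨by_contra fun h' => h1 (hu _ h'), ?_⟩
  have h3 : a * (g.1.2)⁻¹ ∈ Y := by_contra fun h' => h2 (hu' _ h')
  have h4 := hY.conj_mem _ (Y.inv_mem h3) a⁻¹
  have e : a⁻¹ * (a * (g.1.2)⁻¹)⁻¹ * a⁻¹⁻¹ = a⁻¹ * g.1.2 := by group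
  rwa [e] at h4

/-- the isomorphism of `Y × Y` inside the double with the direct product -/
def eYY (Y : Subgroup X) [Y.Normal] : ↥(YY2 Y) ≃* (Y × Y) where
  toFun p := (⟨p.1.1.1, p.2.1⟩, ⟨p.1.1.2, p.2.2⟩)
  invFun q := ⟨⟨(q.1, q.2), Y.mul_mem (Y.inv_mem q.1.2) q.2.2⟩, ⟨q.1.2, q.2.2⟩⟩
  left_inv _ := rfl
  right_inv _ := rfl
  map_mul' _ _ := rfl

/-- the block idempotent of the double -/
theorem sblk_sig (hF : IsAlgClosed F) {f : X → F} (hf : SBlk Y f) :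
    SBlk (YY2 Y) (sig Y f f) := by
  refine ⟨?_, ?_, ?_⟩
  · intro p hp
    by_contra h
    have h1 := sig_supp (Y := Y) (a := 1) (u := f) (u' := f)
      (fun h hh => hf.supp h (by simpa using hh)) (fun h hh => hf.supp h (by simpa using hh)) p h
    rw [inv_one, one_mul, one_mul] at h1
    exact hp h1
  · intro x y
    change f (y.1.1 * x.1.1 * y.1.1⁻¹) * f (y.1.2 * x.1.2 * y.1.2⁻¹)⁻¹ = f x.1.1 * f (x.1.2)⁻¹
    have e : (y.1.2 * x.1.2 * y.1.2⁻¹)⁻¹ = y.1.2 * x.1.2⁻¹ * y.1.2⁻¹ := by group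
    rw [e, hf.cl, hf.cl]
  · have h1 := isBlk_box hF hf.blk (isBlk_dlv hf.blk)
    exact H20.IsBlk_equiv (eYY Y) h1

theorem normal_YY2 : (YY2 Y).Normal := by
  refine ⟨fun n hn g => ?_⟩
  exact ⟨hY.conj_mem _ hn.1 _, hY.conj_mem _ hn.2 _⟩

theorem CE_sig {f : X → F} (hf : SBlk Y f) {p : Lam Y} {v v' : X → F}
    (hv : CE f Y p.1.1 v) (hv' : CE f Y p.1.1⁻¹ v') :
    CE (sig Y f f) (YY2 Y) p (sig Y v v') := by
  refine ⟨?_, ?_, ?_⟩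
  · intro h hh
    by_contra hne
    apply hh
    have h1 := sig_supp (Y := Y) (a := p.1.1) hv.supp (fun h hh => hv'.supp h (by
      rwa [inv_inv])) h hne
    refine ⟨h1.1, ?_⟩
    change p.1.2⁻¹ * h.1.2 ∈ Y
    have h2 : p.1.1⁻¹ * p.1.2 ∈ Y := p.2
    have h3 := Y.mul_mem (Y.inv_mem h2) h1.2
    have e : (p.1.1⁻¹ * p.1.2)⁻¹ * (p.1.1⁻¹ * h.1.2) = p.1.2⁻¹ * h.1.2 := by group
    rwa [e] at h3
  · intro n hn h
    change v (n.1.1 * h.1.1 * n.1.1⁻¹) * v' (n.1.2 * h.1.2 * n.1.2⁻¹)⁻¹ = v h.1.1 * v' (h.1.2)⁻¹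
    have e : (n.1.2 * h.1.2 * n.1.2⁻¹)⁻¹ = n.1.2 * h.1.2⁻¹ * n.1.2⁻¹ := by group
    rw [e, hv.inv n.1.1 hn.1, hv'.inv n.1.2 hn.2]
  · rw [sig_mul (a := 1) v v' (fun h hh => hf.supp h (by simpa using hh))
      (fun h hh => hf.supp h (by simpa using hh)), hv.abs, J74.abs_right hf hv'.abs]

/-- the units of the double -/
theorem unit_sig {f : X → F} (hf : SBlk Y f) {p : Lam Y} {v v' : X → F}
    (h : IsUnitOver f Y p.1.1 v v') :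
    IsUnitOver (sig Y f f) (YY2 Y) p (sig Y v v') (sig Y v' v) := by
  refine ⟨CE_sig hf h.left h.right, ?_, ?_⟩
  · apply CE_sig (p := p⁻¹) hf
    · exact h.right
    · change CE f Y p.1.1⁻¹⁻¹ v
      rw [inv_inv]
      exact h.left
  · rw [sig_mul (a := p.1.1) v' v h.left.supp (fun h' hh => h.right.supp h' (by
      rwa [inv_inv])), h.mul]

end Pool.Agent.PP.H46
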