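import Pool.Agent.Helper46_PP.Db1a
import Pool.Agent.Helper58_PP.Wjc

/-!
# Squad PP, module DB1 (AWC_J 7.4, 7.5): the units of the double modulo `J₁ C` and the element `s`
-/

open scoped BigOperators

set_option linter.unusedSectionVars false

noncomputable section

namespace Pool.Agent.PP.H46

open Pool.Agent.PP

/-! ### calculus of `J₁ C` -/

section J1

variable {F X : Type} [Field F] [Group X] [Finite X] {Y : Subgroup X} {f : X → F}

/-- left multiplication -/
def mL (c : X → F) : (X → F) →ₗ[F] (X → F) where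
  toFun u := mulF c u
  map_add' u v := J74.mulF_add' c u v
  map_smul' a u := J74.mulF_smul' a c u

/-- right multiplication -/
def mR (c : X → F) : (X → F) →ₗ[F] (X → F) where
  toFun u := mulF u c
  map_add' u v := J74.add_mulF' u v c
  map_smul' a u := J74.smul_mulF' a u c

/-- conjugation -/
def cL (x : X) : (X → F) →ₗ[F] (X → F) where
  toFun u := cjF x u
  map_add' _ _ := rfl
  map_smul' _ _ := rfl

theorem J1_left {c : X → F} (hc : CC f Y c) {w : X → F} (hw : w ∈ J1C f Y) :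
    mulF c w ∈ J1C f Y := by
  induction hw using Submodule.span_induction with
  | mem x hx =>
    obtain ⟨z, c', hz, hn, hc', rfl⟩ := hx
    apply Submodule.subset_span
    refine ⟨z, mulF c c', hz, hn, hc.mul hc', ?_⟩
    rw [← mulF_assoc, ← J74.C1_comm hz hc, mulF_assoc]
  | zero =>
    have := (mL c).map_zero
    change mulF c 0 = 0 at this
    rw [this]
    exact Submodule.zero_mem _
  | add x y _ _ hx hy =>
    rw [J74.mulF_add']
    exact Submodule.add_mem _ hx hy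
  | smul a x _ hx =>
    rw [J74.mulF_smul']
    exact Submodule.smul_mem _ _ hx

theorem J1_right {c : X → F} (hc : CC f Y c) {w : X → F} (hw : w ∈ J1C f Y) :
    mulF w c ∈ J1C f Y := by
  induction hw using Submodule.span_induction with
  | mem x hx =>
    obtain ⟨z, c', hz, hn, hc', rfl⟩ := hx
    apply Submodule.subset_span
    exact ⟨z, mulF c' c, hz, hn, hc'.mul hc, by rw [mulF_assoc]⟩
  | zero =>
    have := (mR c).map_zero
    change mulF 0 c = 0 at this
    rw [this]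
    exact Submodule.zero_mem _
  | add x y _ _ hx hy =>
    rw [J74.add_mulF']
    exact Submodule.add_mem _ hx hy
  | smul a x _ hx =>
    rw [J74.smul_mulF']
    exact Submodule.smul_mem _ _ hx

end J1

variable {F X : Type} [Field F] [Group X] [Finite X] {Y : Subgroup X} [hY : Y.Normal]
  {f : X → F}

/-! ### the units of the double modulo `J₁ C` -/

theorem CE_sig1 (hf : SBlk Y f) {v v' : X → F} (hv : CE f Y 1 v) (hv' : CE f Y 1 v') :
    CE (sig Y f f) (YY2 Y) 1 (sig Y v v') := by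
  apply CE_sig (p := (1 : Lam Y)) hf
  · exact hv
  · change CE f Y (1 : X)⁻¹ v'
    rw [inv_one]
    exact hv'

theorem sig_nil_left {n b : X → F} (hn : ∀ h, h ∉ Y → n h = 0) (hb : ∀ h, h ∉ Y → b h = 0)
    (h : ∃ k : ℕ, ma n ^ k = 0) : ∃ k : ℕ, ma (sig Y n b) ^ k = 0 := by
  obtain ⟨k, hk⟩ := (J74.nil_iff n).2 h
  rw [← J74.nil_iff]
  have h1 : ∀ j : ℕ, ∃ c, (mulF (sig Y n b))^[j] (sig Y n b) = sig Y ((mulF n)^[j] n) c := by
    intro j
    induction j with
    | zero => exact ⟨b, rfl⟩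
    | succ j ih =>
      obtain ⟨c, hc⟩ := ih
      refine ⟨mulF c b, ?_⟩
      rw [Function.iterate_succ_apply', hc, sig_mul (a := 1) _ _
        (fun h hh => hn h (by simpa using hh)) (fun h hh => hb h (by simpa using hh)),
        Function.iterate_succ_apply']
  obtain ⟨c, hc⟩ := h1 k
  refine ⟨k, ?_⟩
  rw [hc, hk]
  funext p
  change (0 : F) * _ = 0
  rw [zero_mul]

theorem sig_nil_right {b n : X → F} (hb : ∀ h, h ∉ Y → b h = 0) (hn : ∀ h, h ∉ Y → n h = 0)
    (h : ∃ k : ℕ, ma n ^ k = 0) : ∃ k : ℕ, ma (sig Y b n) ^ k = 0 := by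
  obtain ⟨k, hk⟩ := (J74.nil_iff n).2 h
  rw [← J74.nil_iff]
  have h1 : ∀ j : ℕ, ∃ c, (mulF (sig Y b n))^[j] (sig Y b n) = sig Y c ((mulF n)^[j] n) := by
    intro j
    induction j with
    | zero => exact ⟨b, rfl⟩
    | succ j ih =>
      obtain ⟨c, hc⟩ := ih
      refine ⟨mulF b c, ?_⟩
      have h2 : mulF ((mulF n)^[j] n) n = mulF n ((mulF n)^[j] n) := by
        apply ma_injective
        rw [ma_mul, ma_mul, ma_iterate, ← mul_assoc, ← pow_succ', ← pow_succ]
      rw [Function.iterate_succ_apply', hc, sig_mul (a := 1) _ _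
        (fun h hh => hb h (by simpa using hh)) (fun h hh => hn h (by simpa using hh)),
        Function.iterate_succ_apply', h2]
  obtain ⟨c, hc⟩ := h1 k
  refine ⟨k, ?_⟩
  rw [hc, hk]
  funext p
  change _ * (0 : F) = 0
  rw [mul_zero]

/-- the element `z ⊗ S(z⁻¹)` has residue one -/
theorem sig_res (hF : IsAlgClosed F) (hf : SBlk Y f) {z z' : X → F} (hz : CE f Y 1 z)
    (hz' : CE f Y 1 z') (h : mulF z z' = f) :
    ∃ k : ℕ, (mulF (sig Y z z' - sig Y f f))^[k] (sig Y z z' - sig Y f f) = 0 := by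
  have hg := sblk_sig (Y := Y) hF hf
  have hff := J74.f_CE hf
  have h1 : lamJ f z * lamJ f z' = 1 := by
    rw [← J74.lam_mul hF hY hf hz hz', h, J74.lam_f hF hf]
  have hA : CE (sig Y f f) (YY2 Y) 1 (sig Y (z - lamJ f z • f) z') :=
    CE_sig1 hf (hz.sub (hff.smul _)) hz'
  have hB : CE (sig Y f f) (YY2 Y) 1 (sig Y (lamJ f z • f) (z' - lamJ f z' • f)) :=
    CE_sig1 hf (hff.smul _) (hz'.sub (hff.smul _))
  have e : sig Y z z' - sig Y f f =
      sig Y (z - lamJ f z • f) z' + sig Y (lamJ f z • f) (z' - lamJ f z' • f) := by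
    funext p
    change z p.1.1 * z' (p.1.2)⁻¹ - f p.1.1 * f (p.1.2)⁻¹ =
      (z p.1.1 - lamJ f z * f p.1.1) * z' (p.1.2)⁻¹ +
      (lamJ f z * f p.1.1) * (z' (p.1.2)⁻¹ - lamJ f z' * f (p.1.2)⁻¹)
    linear_combination (f p.1.1 * f (p.1.2)⁻¹) * h1
  have nA : IsNilpotent (J74.zy hA) := by
    rw [J74.nil_zy]
    apply sig_nil_left (hz.sub (hff.smul _)).supp1 hz'.supp1
    have := J74.isRes_lam hF hf hz
    rw [J74.isRes_iff] at this
    rwa [ma_sub, ma_smul]
  have nB : IsNilpotent (J74.zy hB) := by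
    rw [J74.nil_zy]
    apply sig_nil_right (hff.smul _).supp1 (hz'.sub (hff.smul _)).supp1
    have := J74.isRes_lam hF hf hz'
    rw [J74.isRes_iff] at this
    rwa [ma_sub, ma_smul]
  have nAB : IsNilpotent (J74.zy (hA.add hB)) := by
    have h2 : J74.zy (hA.add hB) = J74.zy hA + J74.zy hB := Subtype.ext (ma_add _ _)
    rw [h2]
    exact (Commute.all _ _).isNilpotent_add nA nB
  rw [e, J74.nil_iff]
  rw [J74.nil_zy] at nAB
  exact nAB

/-- CAN: the unit `v ⊗ S(v')` is canonical modulo `J₁ C`. -/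
theorem can (hF : IsAlgClosed F) (hf : SBlk Y f) {p : Lam Y} {v v' w w' : X → F}
    (hv : IsUnitOver f Y p.1.1 v v') (hw : IsUnitOver f Y p.1.1 w w') :
    sig Y v v' - sig Y w w' ∈ J1C (sig Y f f) (YY2 Y) := by
  have hz : CE f Y 1 (mulF v w') := by
    have := hv.left.mul hY hw.right
    rwa [mul_inv_cancel] at this
  have hz' : CE f Y 1 (mulF w v') := by
    have := hw.left.mul hY hv.right
    rwa [mul_inv_cancel] at this
  have hww := J74.unit_symm hY hf hw
  have hzz : mulF (mulF v w') (mulF w v') = f := by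
    rw [mulF_assoc, ← mulF_assoc w' w, hww, hv.right.abs, hv.mul]
  have e1 : mulF (mulF v w') w = v := by
    rw [mulF_assoc, hww, J74.abs_right hf hv.left.abs]
  have e2 : mulF w' (mulF w v') = v' := by
    rw [← mulF_assoc, hww, hv.right.abs]
  have e3 : sig Y v v' = mulF (sig Y (mulF v w') (mulF w v')) (sig Y w w') := by
    rw [sig_mul (a := 1) _ _ (fun h hh => hz.supp1 h (by simpa using hh))
      (fun h hh => hz'.supp1 h (by simpa using hh)), e1, e2]
  have e4 : mulF (sig Y f f) (sig Y w w') = sig Y w w' := (CE_sig hf hw.left hw.right).abs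
  have e5 : sig Y v v' - sig Y w w' =
      mulF (sig Y (mulF v w') (mulF w v') - sig Y f f) (sig Y w w') := by
    have := (mR (sig Y w w')).map_sub (sig Y (mulF v w') (mulF w v')) (sig Y f f)
    change mulF (sig Y (mulF v w') (mulF w v') - sig Y f f) (sig Y w w') =
      mulF (sig Y (mulF v w') (mulF w v')) (sig Y w w') - mulF (sig Y f f) (sig Y w w') at this
    rw [this, ← e3, e4]
  rw [e5]
  apply Submodule.subset_span
  refine ⟨_, _, ?_, sig_res hF hf hz hz' hzz, (CE_sig hf hw.left hw.right).cc, rfl⟩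
  exact (CE_sig1 hf hz hz').sub (J74.f_CE (sblk_sig hF hf))

/-- the element `σ_q` of the double, `q ∈ X / Y` -/
def sg (f : X → F) (Y : Subgroup X) [Y.Normal] (q : X ⧸ Y) : Lam Y → F :=
  open Classical in if h : ∃ v v', IsUnitOver f Y q.out v v' then
    sig Y h.choose h.choose_spec.choose else 0

/-- the inverse -/
def sgi (f : X → F) (Y : Subgroup X) [Y.Normal] (q : X ⧸ Y) : Lam Y → F :=
  open Classical in if h : ∃ v v', IsUnitOver f Y q.out v v' then
    sig Y h.choose_spec.choose h.choose else 0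

theorem sg_spec (hf : SBlk Y f) {g : X} (hg : g ∈ XF f Y) : ∃ v v', IsUnitOver f Y g v v' ∧
    sg f Y (g : X ⧸ Y) = sig Y v v' ∧ sgi f Y (g : X ⧸ Y) = sig Y v' v := by
  have h1 : ((g : X ⧸ Y).out)⁻¹ * g ∈ Y := QuotientGroup.eq.1 (QuotientGroup.out_eq' (g : X ⧸ Y))
  have h2 : (g : X ⧸ Y).out ∈ XF f Y := by
    have h3 := (XF f Y).mul_mem hg (J74.le_XF hY hf (Y.inv_mem h1))
    have e : g * ((((g : X ⧸ Y).out)⁻¹ * g))⁻¹ = (g : X ⧸ Y).out := by group
    rwa [e] at h3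
  have h : ∃ v v', IsUnitOver f Y (g : X ⧸ Y).out v v' := (J74.mem_XF hY hf _).1 h2
  refine ⟨h.choose, h.choose_spec.choose, ?_, ?_, ?_⟩
  · have h3 := J74.unit_congr hY h1 h.choose_spec.choose_spec
    rwa [mul_inv_cancel_left] at h3
  · unfold sg
    rw [dif_pos h]
  · unfold sgi
    rw [dif_pos h]

/-- the element `(g, g)` of the double -/
def dg (Y : Subgroup X) [Y.Normal] (g : X) : Lam Y := ⟨(g, g), by
  change g⁻¹ * g ∈ Y
  rw [inv_mul_cancel]
  exact Y.one_mem⟩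

theorem sg_can (hF : IsAlgClosed F) (hf : SBlk Y f) {g : X} {v v' : X → F}
    (h : IsUnitOver f Y g v v') :
    sig Y v v' - sg f Y (g : X ⧸ Y) ∈ J1C (sig Y f f) (YY2 Y) := by
  obtain ⟨w, w', hw, h1, -⟩ := sg_spec hf ((J74.mem_XF hY hf g).2 ⟨v, v', h⟩)
  rw [h1]
  exact can (p := dg Y g) hF hf h hw

theorem sg_one (hF : IsAlgClosed F) (hf : SBlk Y f) :
    sig Y f f - sg f Y (1 : X ⧸ Y) ∈ J1C (sig Y f f) (YY2 Y) :=
  sg_can hF hf (J74.unit_one hf)

theorem sg_mul (hF : IsAlgClosed F) (hf : SBlk Y f) {a b : X} (ha : a ∈ XF f Y)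
    (hb : b ∈ XF f Y) : mulF (sg f Y (a : X ⧸ Y)) (sg f Y (b : X ⧸ Y)) -
      sg f Y ((a * b : X) : X ⧸ Y) ∈ J1C (sig Y f f) (YY2 Y) := by
  obtain ⟨v, v', hv, h1, -⟩ := sg_spec hf ha
  obtain ⟨w, w', hw, h2, -⟩ := sg_spec hf hb
  rw [h1, h2, sig_mul (a := a) _ _ hv.left.supp (fun h hh => hv.right.supp h (by rwa [inv_inv]))]
  exact sg_can hF hf (J74.unit_mul hY hf hv hw)

theorem cjF_sig (x : Lam Y) (v v' : X → F) :
    cjF x (sig Y v v') = sig Y (cjF x.1.1 v) (cjF x.1.2 v') := by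
  funext h
  change v (x.1.1⁻¹ * h.1.1 * x.1.1) * v' (x.1.2⁻¹ * h.1.2 * x.1.2)⁻¹ =
    v (x.1.1⁻¹ * h.1.1 * x.1.1) * v' (x.1.2⁻¹ * (h.1.2)⁻¹ * x.1.2)
  congr 2
  group

theorem cjF_snd (x : Lam Y) {c : X → F} (hc : CC f Y c) : cjF x.1.2 c = cjF x.1.1 c := by
  have h : x.1.1⁻¹ * x.1.2 ∈ Y := x.2
  have h1 := H20.cjF_cjF x.1.1 (x.1.1⁻¹ * x.1.2) c
  rw [J74.cjF_memY h hc, mul_inv_cancel_left] at h1
  exact h1.symm

theorem sg_conj (hF : IsAlgClosed F) (hf : SBlk Y f) (x : Lam Y) {a : X} (ha : a ∈ XF f Y) :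
    cjF x (sg f Y (a : X ⧸ Y)) - sg f Y ((x.1.1 * a * x.1.1⁻¹ : X) : X ⧸ Y) ∈
      J1C (sig Y f f) (YY2 Y) := by
  obtain ⟨v, v', hv, h1, -⟩ := sg_spec hf ha
  rw [h1, cjF_sig, cjF_snd x hv.right.cc]
  exact sg_can hF hf (J74.unit_conj hY hf hv x.1.1)

theorem sg_unit (hf : SBlk Y f) {p : Lam Y} (hp : p.1.1 ∈ XF f Y) :
    IsUnitOver (sig Y f f) (YY2 Y) p (sg f Y (p.1.1 : X ⧸ Y)) (sgi f Y (p.1.1 : X ⧸ Y)) := by
  obtain ⟨v, v', hv, h1, h2⟩ := sg_spec hf hp
  rw [h1, h2]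
  exact unit_sig hf hv

end Pool.Agent.PP.H46
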