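import Mathlib

/-!
# Squad PP, module DB1: group theory (the `ℓ'`-part of a nilpotent normal subgroup)
-/

noncomputable section

namespace Pool.Agent.PP.H46

/-- A finite nilpotent group has a normal subgroup of order prime to `ℓ` and index a power of
`ℓ`. -/
theorem nil_compl' {V : Type} [Group V] [Finite V] (hV : Group.IsNilpotent V) (ℓ : ℕ)
    [hl : Fact ℓ.Prime] : ∃ V₀ : Subgroup V, V₀.Normal ∧ ¬ ℓ ∣ Nat.card V₀ ∧
    ∃ n : ℕ, V₀.index = ℓ ^ n := by
  classical
  by_cases hd : ℓ ∣ Nat.card V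
  · obtain ⟨e⟩ := ((Group.isNilpotent_of_finite_tfae (G := V)).out 0 4).1 hV
    have hmem : ℓ ∈ (Nat.card V).primeFactors :=
      Nat.mem_primeFactors.2 ⟨hl.out, hd, Nat.card_pos.ne'⟩
    obtain ⟨P⟩ := (inferInstance : Nonempty (Sylow ℓ V))
    let π₁ : (∀ p : (Nat.card V).primeFactors, ∀ P : Sylow p V, (P : Subgroup V)) →*
        (∀ P : Sylow ℓ V, (P : Subgroup V)) :=
      Pi.evalMonoidHom (fun p : (Nat.card V).primeFactors => ∀ P : Sylow p V, (P : Subgroup V))
        ⟨ℓ, hmem⟩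
    let π₂ : (∀ P : Sylow ℓ V, (P : Subgroup V)) →* (P : Subgroup V) :=
      Pi.evalMonoidHom (fun P : Sylow ℓ V => (P : Subgroup V)) P
    have hs₁ : Function.Surjective π₁ := Function.surjective_eval _
    have hs₂ : Function.Surjective π₂ := Function.surjective_eval _
    let π : V →* (P : Subgroup V) := (π₂.comp π₁).comp e.symm.toMonoidHom
    have hπ : Function.Surjective π := (hs₂.comp hs₁).comp e.symm.surjective
    have hidx : π.ker.index = ℓ ^ (Nat.card V).factorization ℓ := by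
      rw [Subgroup.index_ker, MonoidHom.range_eq_top.2 hπ, Subgroup.card_top]
      exact P.card_eq_multiplicity
    refine ⟨π.ker, inferInstance, ?_, _, hidx⟩
    intro h
    have h1 := π.ker.card_mul_index
    rw [hidx] at h1
    have h2 : ℓ * ℓ ^ (Nat.card V).factorization ℓ ∣ Nat.card V :=
      (Nat.mul_dvd_mul h (dvd_refl _)).trans (dvd_of_eq h1)
    rw [mul_comm, ← pow_succ] at h2
    exact Nat.pow_succ_factorization_not_dvd (Nat.card_pos (α := V)).ne' hl.out h2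
  · exact ⟨⊤, inferInstance, by rwa [Subgroup.card_top], 0, by rw [Subgroup.index_top, pow_zero]⟩

/-- the `ℓ'`-part of a nilpotent normal subgroup -/
theorem nil_part {G : Type} [Group G] [Finite G] {J : Subgroup G} (hJ : J.Normal) {m : ℕ}
    (hm : Subgroup.lowerCentralSeries J m = ⊥) (ℓ : ℕ) [hl : Fact ℓ.Prime] :
    ∃ H : Subgroup G, H.Normal ∧ H ≤ J ∧ ¬ ℓ ∣ Nat.card H ∧ ∃ n : ℕ, ∀ q ∈ J, q ^ (ℓ ^ n) ∈ H := by
  have hV : Group.IsNilpotent J := by
    rw [Subgroup.nilpotent_iff_lowerCentralSeries]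
    refine ⟨m, ?_⟩
    have h1 := Subgroup.map_lowerCentralSeries (⊤ : Subgroup J) J.subtype m
    rw [← MonoidHom.range_eq_map, Subgroup.range_subtype, hm] at h1
    exact (Subgroup.map_eq_bot_iff_of_injective _ J.subtype_injective).1 h1
  obtain ⟨V₀, h1, h2, n, h3⟩ := nil_compl' hV ℓ
  have key : ∀ q : J, (orderOf q).Coprime ℓ → q ∈ V₀ := by
    intro q hq
    rw [← QuotientGroup.eq_one_iff, ← orderOf_eq_one_iff]
    have h4 : orderOf (q : J ⧸ V₀) ∣ orderOf q := orderOf_map_dvd (QuotientGroup.mk' V₀) q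
    have h5 : orderOf (q : J ⧸ V₀) ∣ ℓ ^ n := by
      rw [← h3]
      exact orderOf_dvd_natCard _
    exact Nat.eq_one_of_dvd_coprimes (Nat.Coprime.pow_right n hq) h4 h5
  have key2 : ∀ q : J, q ∈ V₀ → (orderOf q).Coprime ℓ := by
    intro q hq
    have h4 : orderOf q ∣ Nat.card V₀ := by
      have h5 := orderOf_dvd_natCard (⟨q, hq⟩ : V₀)
      rwa [Subgroup.orderOf_mk] at h5
    rw [Nat.coprime_comm, Nat.Prime.coprime_iff_not_dvd hl.out]
    exact fun h => h2 (h.trans h4)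
  refine ⟨V₀.map J.subtype, ⟨?_⟩, ?_, ?_, n, ?_⟩
  · rintro _ ⟨v, hv, rfl⟩ g
    have h4 : g * (v : G) * g⁻¹ ∈ J := hJ.conj_mem _ v.2 g
    refine ⟨⟨_, h4⟩, ?_, rfl⟩
    apply key
    have h5 : orderOf (⟨g * (v : G) * g⁻¹, h4⟩ : J) = orderOf v := by
      rw [Subgroup.orderOf_mk, ← Subgroup.orderOf_coe v]
      exact orderOf_injective (MulAut.conj g).toMonoidHom (MulAut.conj g).injective (v : G)
    rw [h5]
    exact key2 v hv
  · rintro _ ⟨v, _, rfl⟩
    exact v.2
  · rw [Nat.card_congr (Subgroup.equivMapOfInjective V₀ J.subtype J.subtype_injective).symm.toEquiv]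
    exact h2
  · intro q hq
    refine ⟨(⟨q, hq⟩ : J) ^ (ℓ ^ n), ?_, rfl⟩
    have h4 := V₀.pow_index_mem (⟨q, hq⟩ : J)
    rwa [h3] at h4

end Pool.Agent.PP.H46
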