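import Pool.Agent.Helper46_PP.Db1b
import Pool.Agent.Helper46_PP.Db1g
import Pool.Agent.Helper76_PP.Lft

/-!
# Squad PP, module DB1 (AWC_J 7.4, 7.5): the element `s` and the idempotent `E`
-/

open scoped BigOperators

set_option linter.unusedSectionVars false

noncomputable section

namespace Pool.Agent.PP.H46

open Pool.Agent.PP

section de

variable {F X : Type} [Field F] [Group X] [Finite X] {Y M : Subgroup X} {f : X → F}

/-- the elements of `D` as a subspace -/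
def DEs (f : X → F) (Y M : Subgroup X) : Submodule F (X → F) where
  carrier := {d | DE f Y M d}
  zero_mem' := ⟨⟨fun _ _ _ => rfl, (mL f).map_zero⟩, fun _ _ => rfl⟩
  add_mem' := by
    intro u v hu hv
    refine ⟨⟨fun n hn h => ?_, ?_⟩, fun h hh => ?_⟩
    · rw [Pi.add_apply, Pi.add_apply, hu.cc.inv n hn, hv.cc.inv n hn]
    · rw [J74.mulF_add', hu.cc.abs, hv.cc.abs]
    · rw [Pi.add_apply, hu.supp h hh, hv.supp h hh, add_zero]
  smul_mem' := by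
    intro c u hu
    refine ⟨⟨fun n hn h => ?_, ?_⟩, fun h hh => ?_⟩
    · rw [Pi.smul_apply, Pi.smul_apply, hu.cc.inv n hn]
    · rw [J74.mulF_smul', hu.cc.abs]
    · rw [Pi.smul_apply, hu.supp h hh, smul_zero]

theorem mem_DEs {d : X → F} : d ∈ DEs f Y M ↔ DE f Y M d := Iff.rfl

end de

variable {F X : Type} [Field F] [Group X] [Finite X] {Y : Subgroup X} [hY : Y.Normal]
  {f : X → F}

/-- the image of `X[f]` in `X / Y` -/
def Jb (f : X → F) (Y : Subgroup X) [Y.Normal] : Subgroup (X ⧸ Y) :=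
  (XF f Y).map (QuotientGroup.mk' Y)

theorem mem_Jb {q : X ⧸ Y} : q ∈ Jb f Y ↔ ∃ a ∈ XF f Y, (a : X ⧸ Y) = q := Iff.rfl

theorem Jb_normal (hf : SBlk Y f) : (Jb f Y).Normal :=
  (J74.XF_normal hY hf).map _ (QuotientGroup.mk'_surjective Y)

theorem M_normal (hf : SBlk Y f) : (fstP Y (XF f Y)).Normal :=
  (J74.XF_normal hY hf).comap _

theorem N_le_M (hf : SBlk Y f) : YY2 Y ≤ fstP Y (XF f Y) := fun _ hp =>
  J74.le_XF hY hf hp.1

theorem M_le_XF (hF : IsAlgClosed F) (hf : SBlk Y f) :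
    fstP Y (XF f Y) ≤ XF (sig Y f f) (YY2 Y) := fun p hp =>
  (J74.mem_XF normal_YY2 (sblk_sig hF hf) p).2 ⟨_, _, sg_unit hf hp⟩

theorem sg_DE (hf : SBlk Y f) {q : X ⧸ Y} (hq : q ∈ Jb f Y) :
    DE (sig Y f f) (YY2 Y) (fstP Y (XF f Y)) (sg f Y q) := by
  obtain ⟨a, ha, rfl⟩ := mem_Jb.1 hq
  exact H58.CE_DE (N_le_M hf) (g := dg Y a) ha (sg_unit (p := dg Y a) hf ha).left

/-- reduction modulo `J₁ C` -/
abbrev pj (f : X → F) (Y : Subgroup X) [Y.Normal] :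
    (Lam Y → F) →ₗ[F] ((Lam Y → F) ⧸ J1C (sig Y f f) (YY2 Y)) :=
  (J1C (sig Y f f) (YY2 Y)).mkQ

theorem pj_iff {u v : Lam Y → F} :
    pj f Y u = pj f Y v ↔ u - v ∈ J1C (sig Y f f) (YY2 Y) := by
  rw [Submodule.mkQ_apply, Submodule.mkQ_apply]
  exact Submodule.Quotient.eq _

theorem sg_mul' (hF : IsAlgClosed F) (hf : SBlk Y f) {q r : X ⧸ Y} (hq : q ∈ Jb f Y)
    (hr : r ∈ Jb f Y) : pj f Y (mulF (sg f Y q) (sg f Y r)) = pj f Y (sg f Y (q * r)) := by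
  obtain ⟨a, ha, rfl⟩ := mem_Jb.1 hq
  obtain ⟨b, hb, rfl⟩ := mem_Jb.1 hr
  exact pj_iff.2 (sg_mul hF hf ha hb)

theorem sg_conj' (hF : IsAlgClosed F) (hf : SBlk Y f) (x : Lam Y) {q : X ⧸ Y}
    (hq : q ∈ Jb f Y) : pj f Y (cjF x (sg f Y q)) =
      pj f Y (sg f Y ((x.1.1 : X ⧸ Y) * q * (x.1.1 : X ⧸ Y)⁻¹)) := by
  obtain ⟨a, ha, rfl⟩ := mem_Jb.1 hq
  exact pj_iff.2 (sg_conj hF hf x ha)

/-- the element `s` -/
def sel (f : X → F) (Y : Subgroup X) [Y.Normal] (H : Subgroup (X ⧸ Y)) [Fintype H] : Lam Y → F :=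
  (Fintype.card H : F)⁻¹ • ∑ q : H, sg f Y (q : X ⧸ Y)

variable {H : Subgroup (X ⧸ Y)} [Fintype H]

theorem sel_DE (hf : SBlk Y f) (hH : H ≤ Jb f Y) :
    DE (sig Y f f) (YY2 Y) (fstP Y (XF f Y)) (sel f Y H) := by
  rw [← mem_DEs]
  exact Submodule.smul_mem _ _ (Submodule.sum_mem _ fun q _ => sg_DE hf (hH q.2))

theorem pj_sel : pj f Y (sel f Y H) = (Fintype.card H : F)⁻¹ • ∑ q : H, pj f Y (sg f Y q) := by
  unfold sel
  rw [map_smul, map_sum]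

theorem pj_mul_sel_left {c : Lam Y → F} : pj f Y (mulF c (sel f Y H)) =
    (Fintype.card H : F)⁻¹ • ∑ q : H, pj f Y (mulF c (sg f Y q)) := by
  have h := (pj f Y ∘ₗ mL c).map_smul ((Fintype.card H : F)⁻¹) (∑ q : H, sg f Y (q : X ⧸ Y))
  rw [map_sum] at h
  exact h

theorem pj_mul_sel_right {c : Lam Y → F} : pj f Y (mulF (sel f Y H) c) =
    (Fintype.card H : F)⁻¹ • ∑ q : H, pj f Y (mulF (sg f Y q) c) := by
  have h := (pj f Y ∘ₗ mR c).map_smul ((Fintype.card H : F)⁻¹) (∑ q : H, sg f Y (q : X ⧸ Y))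
  rw [map_sum] at h
  exact h

theorem pj_cj_sel {x : Lam Y} : pj f Y (cjF x (sel f Y H)) =
    (Fintype.card H : F)⁻¹ • ∑ q : H, pj f Y (cjF x (sg f Y q)) := by
  have h := (pj f Y ∘ₗ cL x).map_smul ((Fintype.card H : F)⁻¹) (∑ q : H, sg f Y (q : X ⧸ Y))
  rw [map_sum] at h
  exact h

/-- `s` is fixed by the multiplication with `σ_q`, `q ∈ H`, modulo `J₁ C` -/
theorem sg_sel (hF : IsAlgClosed F) (hf : SBlk Y f) (hH : H ≤ Jb f Y) (q : H) :
    pj f Y (mulF (sg f Y (q : X ⧸ Y)) (sel f Y H)) = pj f Y (sel f Y H) := by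
  rw [pj_mul_sel_left, pj_sel]
  congr 1
  refine Fintype.sum_equiv (Equiv.mulLeft q) _ _ fun r => ?_
  exact sg_mul' hF hf (hH q.2) (hH r.2)

/-- `s` is an idempotent modulo `J₁ C` -/
theorem sel_idem (hF : IsAlgClosed F) (hf : SBlk Y f) (hH : H ≤ Jb f Y)
    (hc : (Fintype.card H : F) ≠ 0) :
    mulF (sel f Y H) (sel f Y H) - sel f Y H ∈ J1C (sig Y f f) (YY2 Y) := by
  rw [← pj_iff, pj_mul_sel_right]
  simp_rw [sg_sel hF hf hH]
  rw [Finset.sum_const, Finset.card_univ, ← Nat.cast_smul_eq_nsmul F, smul_smul,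
    inv_mul_cancel₀ hc, one_smul]

/-- `s` commutes with the units modulo `J₁ C` -/
theorem sel_comm_sg (hF : IsAlgClosed F) (hf : SBlk Y f) (hH : H ≤ Jb f Y) (hn : H.Normal)
    {r : X ⧸ Y} (hr : r ∈ Jb f Y) : pj f Y (mulF (sel f Y H) (sg f Y r)) =
      pj f Y (mulF (sg f Y r) (sel f Y H)) := by
  rw [pj_mul_sel_left, pj_mul_sel_right]
  congr 1
  refine Fintype.sum_equiv (MulAut.conjNormal r⁻¹ : MulAut H).toEquiv _ _ fun q => ?_
  rw [sg_mul' hF hf (hH q.2) hr, sg_mul' hF hf hr (hH (SetLike.coe_mem _))]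
  congr 2
  change (q : X ⧸ Y) * r = r * (((MulAut.conjNormal r⁻¹ : MulAut H) q : H) : X ⧸ Y)
  rw [MulAut.conjNormal_apply]
  group

theorem sel_comm (hF : IsAlgClosed F) (hf : SBlk Y f) (hH : H ≤ Jb f Y) (hn : H.Normal)
    {d : Lam Y → F} (hd : DE (sig Y f f) (YY2 Y) (fstP Y (XF f Y)) d) :
    mulF (sel f Y H) d - mulF d (sel f Y H) ∈ J1C (sig Y f f) (YY2 Y) := by
  have hg := sblk_sig (Y := Y) hF hf
  have hd' := H58.DE_span hg normal_YY2 (N_le_M hf) hd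
  have hs := sel_DE hf hH
  clear hd
  induction hd' using Submodule.span_induction with
  | mem x hx =>
    obtain ⟨p, hp, hx⟩ := hx
    obtain ⟨z, hz, rfl⟩ := J74.unit_span normal_YY2 hg (sg_unit hf hp) hx
    have hp' : (p.1.1 : X ⧸ Y) ∈ Jb f Y := mem_Jb.2 ⟨_, hp, rfl⟩
    have e1 : mulF (sel f Y H) (mulF z (sg f Y (p.1.1 : X ⧸ Y))) =
        mulF z (mulF (sel f Y H) (sg f Y (p.1.1 : X ⧸ Y))) := by
      rw [← mulF_assoc, ← J74.C1_comm hz hs.cc, mulF_assoc]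
    rw [e1, mulF_assoc, ← J74.mulF_sub']
    exact J1_left hz.cc (pj_iff.1 (sel_comm_sg hF hf hH hn hp'))
  | zero =>
    have h1 := (mL (sel f Y H)).map_zero
    have h2 := (mR (sel f Y H)).map_zero
    change mulF _ 0 = 0 at h1
    change mulF 0 _ = 0 at h2
    rw [h1, h2, sub_zero]
    exact Submodule.zero_mem _
  | add x y _ _ hx hy =>
    rw [J74.mulF_add', J74.add_mulF', add_sub_add_comm]
    exact Submodule.add_mem _ hx hy
  | smul a x _ hx =>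
    rw [J74.mulF_smul', J74.smul_mulF', ← smul_sub]
    exact Submodule.smul_mem _ _ hx

theorem sel_conj (hF : IsAlgClosed F) (hf : SBlk Y f) (hH : H ≤ Jb f Y) (hn : H.Normal)
    (x : Lam Y) : cjF x (sel f Y H) - sel f Y H ∈ J1C (sig Y f f) (YY2 Y) := by
  rw [← pj_iff, pj_cj_sel, pj_sel]
  congr 1
  refine Fintype.sum_equiv (MulAut.conjNormal (x.1.1 : X ⧸ Y) : MulAut H).toEquiv _ _ fun q => ?_
  rw [sg_conj' hF hf x (hH q.2)]
  rfl

/-- the idempotent `E` -/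
theorem exists_E {ℓ : ℕ} (hF : GoodF ℓ F) (hf : SBlk Y f) (hH : H ≤ Jb f Y) (hn : H.Normal)
    (hc : (Fintype.card H : F) ≠ 0) : ∃ E : Lam Y → F, IsIdem E ∧
      (∀ h, h ∉ fstP Y (XF f Y) → E h = 0) ∧ mulF E (sig Y f f) = E ∧
      E - sel f Y H ∈ J1C (sig Y f f) (YY2 Y) :=
  H76.lft ℓ F hF (Lam Y) (YY2 Y) normal_YY2 _ (sblk_sig hF.closed hf) _ (M_normal hf)
    (N_le_M hf) (M_le_XF hF.closed hf) _ (sel_DE hf hH) (sel_idem hF.closed hf hH hc)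
    (fun _ hd => sel_comm hF.closed hf hH hn hd) (sel_conj hF.closed hf hH hn)

end Pool.Agent.PP.H46
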