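import Pool.Agent.Helper46_PP.Db1c
import Pool.Agent.Helper74_PP.SupJ

/-!
# Squad PP, module DB1 (AWC_J 7.5): the one dimensional representation of `D E`
-/

open scoped BigOperators

set_option linter.unusedSectionVars false

noncomputable section

namespace Pool.Agent.PP.H46

open Pool.Agent.PP

section lam

variable {F X : Type} [Field F] [Group X] [Finite X] {Y : Subgroup X} {f : X → F}

theorem lam_J1 (hF : IsAlgClosed F) (hf : SBlk Y f) {w : X → F} (hw : CE f Y 1 w)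
    (h : w ∈ J1C f Y) : lamJ f w = 0 := by
  apply J74.lam_eq hF hf hw
  unfold IsRes
  rw [zero_smul, sub_zero, J74.nil_iff]
  exact (J74.J1C_nil h).2

theorem mulF_zero' (u : X → F) : mulF u 0 = 0 := (mL u).map_zero

theorem zero_mulF' (u : X → F) : mulF 0 u = 0 := (mR u).map_zero

theorem CE_zero (g : X) : CE f Y g (0 : X → F) :=
  ⟨fun _ _ => rfl, fun _ _ _ => rfl, mulF_zero' f⟩

theorem lam_zero0 (hF : IsAlgClosed F) (hf : SBlk Y f) : lamJ f (0 : X → F) = 0 := by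
  have h := J74.lam_smul hF hf 0 (J74.f_CE hf)
  rwa [zero_smul, zero_mul] at h

theorem cj_iter (x : X) (z : X → F) (n : ℕ) :
    (mulF (cjF x z))^[n] (cjF x z) = cjF x ((mulF z)^[n] z) := by
  induction n with
  | zero => rfl
  | succ n ih =>
    rw [Function.iterate_succ_apply', Function.iterate_succ_apply', ih, J74.cjF_mul]

theorem lam_cj (hF : IsAlgClosed F) (hY : Y.Normal) (hf : SBlk Y f) {z : X → F}
    (hz : CE f Y 1 z) (x : X) : CE f Y 1 (cjF x z) ∧ lamJ f (cjF x z) = lamJ f z := by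
  have h1 : CE f Y 1 (cjF x z) := by
    have := CE.cjF hY hf hz x
    rwa [mul_one, mul_inv_cancel] at this
  refine ⟨h1, J74.lam_eq hF hf h1 ?_⟩
  obtain ⟨n, hn⟩ := J74.isRes_lam hF hf hz
  refine ⟨n, ?_⟩
  have e : cjF x z - lamJ f z • f = cjF x (z - lamJ f z • f) := by
    have h2 := (cL x).map_sub z (lamJ f z • f)
    rw [(cL x).map_smul] at h2
    change cjF x (z - lamJ f z • f) = cjF x z - lamJ f z • cjF x f at h2
    rw [h2, J74.cjF_f hf]
  rw [e, cj_iter, hn]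
  rfl

end lam

variable {F X : Type} [Field F] [Group X] [Finite X] {Y : Subgroup X} [hY : Y.Normal]
  {f : X → F}

/-- a coset in the double -/
def cs (Y : Subgroup X) [Y.Normal] (q : X ⧸ Y) : Set (Lam Y) := {p | (p.1.1 : X ⧸ Y) = q}

theorem cs_1 (q : X ⧸ Y) : ∀ t ∈ YY2 Y, ∀ h, t⁻¹ * h ∈ cs Y q ↔ h ∈ cs Y q := fun t ht h =>
  H58.cst_1 hY q t.1.1 ht.1 h.1.1

theorem cs_2 (q : X ⧸ Y) : ∀ t ∈ YY2 Y, ∀ h, t * h * t⁻¹ ∈ cs Y q ↔ h ∈ cs Y q := fun t ht h =>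
  H58.cst_2 hY q t.1.1 ht.1 h.1.1

theorem mem_YY2_of {p h : Lam Y} (hh : (h.1.1 : X ⧸ Y) = (p.1.1 : X ⧸ Y)) :
    p⁻¹ * h ∈ YY2 Y := by
  have h1 : p.1.1⁻¹ * h.1.1 ∈ Y := QuotientGroup.eq.1 hh.symm
  have h2 : p.1.1⁻¹ * p.1.2 ∈ Y := p.2
  have h3 : h.1.1⁻¹ * h.1.2 ∈ Y := h.2
  refine ⟨h1, ?_⟩
  change p.1.2⁻¹ * h.1.2 ∈ Y
  have h4 := Y.mul_mem (Y.mul_mem (Y.inv_mem h2) h1) h3
  have e : (p.1.1⁻¹ * p.1.2)⁻¹ * (p.1.1⁻¹ * h.1.1) * (h.1.1⁻¹ * h.1.2) = p.1.2⁻¹ * h.1.2 := by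
    group
  rwa [e] at h4

theorem pr_CE (hF : IsAlgClosed F) (hf : SBlk Y f) {d : Lam Y → F}
    (hd : CC (sig Y f f) (YY2 Y) d) (p : Lam Y) :
    CE (sig Y f f) (YY2 Y) p (H58.prM F (cs Y (p.1.1 : X ⧸ Y)) d) := by
  have h1 := H58.prM_CC (sblk_sig hF hf) (cs_1 (p.1.1 : X ⧸ Y)) (cs_2 (p.1.1 : X ⧸ Y)) hd
  exact ⟨fun h hh => H58.prM_not fun hc => hh (mem_YY2_of hc), h1.inv, h1.abs⟩

theorem pr_self {p : Lam Y} {u : Lam Y → F} (hu : CE (sig Y f f) (YY2 Y) p u) :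
    H58.prM F (cs Y (p.1.1 : X ⧸ Y)) u = u := by
  apply H58.prM_of_supp
  intro h hh
  apply hu.supp
  intro hc
  apply hh
  have h1 : p.1.1⁻¹ * h.1.1 ∈ Y := hc.1
  exact (QuotientGroup.eq.2 h1).symm

theorem pr_ne {p : Lam Y} {u : Lam Y → F} (hu : CE (sig Y f f) (YY2 Y) p u) {q : X ⧸ Y}
    (hq : q ≠ (p.1.1 : X ⧸ Y)) : H58.prM F (cs Y q) u = 0 := by
  funext h
  by_cases hh : h ∈ cs Y q
  · rw [H58.prM_mem hh]
    apply hu.supp
    intro hc
    apply hq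
    have h1 : p.1.1⁻¹ * h.1.1 ∈ Y := hc.1
    have h2 : (h.1.1 : X ⧸ Y) = q := hh
    rw [← h2]
    exact (QuotientGroup.eq.2 h1).symm
  · exact H58.prM_not hh

theorem pr_out {d : Lam Y → F}
    (hd : DE (sig Y f f) (YY2 Y) (fstP Y (XF f Y)) d) {q : X ⧸ Y} (hq : q ∉ Jb f Y) :
    H58.prM F (cs Y q) d = 0 := by
  funext h
  by_cases hh : h ∈ cs Y q
  · rw [H58.prM_mem hh]
    apply hd.supp
    intro hc
    exact hq ⟨h.1.1, hc, hh⟩
  · exact H58.prM_not hh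

theorem CE_w (hF : IsAlgClosed F) (hf : SBlk Y f) {d : Lam Y → F}
    (hd : DE (sig Y f f) (YY2 Y) (fstP Y (XF f Y)) d) (q : X ⧸ Y) :
    CE (sig Y f f) (YY2 Y) 1 (mulF (H58.prM F (cs Y q) d) (sgi f Y q)) := by
  by_cases hq : q ∈ Jb f Y
  · obtain ⟨a, ha, rfl⟩ := hq
    have h1 := pr_CE hF hf hd.cc (dg Y a)
    have h2 := (sg_unit (p := dg Y a) hf ha).right
    have h3 := h1.mul normal_YY2 h2
    rw [mul_inv_cancel] at h3
    exact h3
  · rw [pr_out hd hq, zero_mulF']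
    exact CE_zero _

theorem exists_w (hF : IsAlgClosed F) (hf : SBlk Y f) : ∃ w : (Lam Y → F) →ₗ[F] F,
    ∀ p ∈ fstP Y (XF f Y), ∀ u, CE (sig Y f f) (YY2 Y) p u →
      w u = lamJ (sig Y f f) (mulF u (sgi f Y (p.1.1 : X ⧸ Y))) := by
  classical
  have := Fintype.ofFinite (X ⧸ Y)
  have hg := sblk_sig (Y := Y) hF hf
  let w1 : DEs (sig Y f f) (YY2 Y) (fstP Y (XF f Y)) →ₗ[F] F :=
    { toFun := fun d => ∑ q : X ⧸ Y, lamJ (sig Y f f)
        (mulF (H58.prM F (cs Y q) (d : Lam Y → F)) (sgi f Y q))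
      map_add' := by
        intro a b
        rw [← Finset.sum_add_distrib]
        apply Finset.sum_congr rfl
        intro q _
        have h1 := (H58.prM F (cs Y q)).map_add (a : Lam Y → F) b
        change lamJ (sig Y f f) (mulF (H58.prM F (cs Y q) ((a : Lam Y → F) + b)) (sgi f Y q)) = _
        rw [h1, J74.add_mulF']
        exact J74.lam_add hF hg (CE_w hF hf a.2 q) (CE_w hF hf b.2 q)
      map_smul' := by
        intro c a
        rw [RingHom.id_apply, smul_eq_mul, Finset.mul_sum]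
        apply Finset.sum_congr rfl
        intro q _
        have h1 := (H58.prM F (cs Y q)).map_smul c (a : Lam Y → F)
        change lamJ (sig Y f f) (mulF (H58.prM F (cs Y q) (c • (a : Lam Y → F))) (sgi f Y q)) = _
        rw [h1, J74.smul_mulF']
        exact J74.lam_smul hF hg c (CE_w hF hf a.2 q) }
  obtain ⟨w, hw⟩ := LinearMap.exists_extend w1
  refine ⟨w, fun p hp u hu => ?_⟩
  have hd := H58.CE_DE (N_le_M hf) hp hu
  have h1 : w u = w1 ⟨u, hd⟩ := by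
    rw [← hw]
    rfl
  rw [h1]
  change ∑ q : X ⧸ Y, lamJ (sig Y f f) (mulF (H58.prM F (cs Y q) u) (sgi f Y q)) = _
  rw [Finset.sum_eq_single (p.1.1 : X ⧸ Y)]
  · rw [pr_self hu]
  · intro q _ hq
    rw [pr_ne hu hq, zero_mulF']
    exact lam_zero0 hF hg
  · intro h
    exact absurd (Finset.mem_univ _) h

section w

variable {w : (Lam Y → F) →ₗ[F] F}

/-- the property of the functional `w` -/
def IsW (f : X → F) (Y : Subgroup X) [Y.Normal] (w : (Lam Y → F) →ₗ[F] F) : Prop :=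
  ∀ p ∈ fstP Y (XF f Y), ∀ u, CE (sig Y f f) (YY2 Y) p u →
      w u = lamJ (sig Y f f) (mulF u (sgi f Y (p.1.1 : X ⧸ Y)))

theorem CE_w1 (hf : SBlk Y f) {p : Lam Y} (hp : p ∈ fstP Y (XF f Y)) {u : Lam Y → F}
    (hu : CE (sig Y f f) (YY2 Y) p u) :
    CE (sig Y f f) (YY2 Y) 1 (mulF u (sgi f Y (p.1.1 : X ⧸ Y))) := by
  have h := hu.mul normal_YY2 (sg_unit hf hp).right
  rwa [mul_inv_cancel] at h

theorem w_J1 (hF : IsAlgClosed F) (hf : SBlk Y f) (hw : IsW f Y w) {p : Lam Y}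
    (hp : p ∈ fstP Y (XF f Y)) {u : Lam Y → F} (hu : CE (sig Y f f) (YY2 Y) p u)
    (h : u ∈ J1C (sig Y f f) (YY2 Y)) : w u = 0 := by
  rw [hw p hp u hu]
  exact lam_J1 hF (sblk_sig hF hf) (CE_w1 hf hp hu) (J1_right (sg_unit hf hp).right.cc h)

theorem w_sg (hF : IsAlgClosed F) (hf : SBlk Y f) (hw : IsW f Y w) {q : X ⧸ Y}
    (hq : q ∈ Jb f Y) : w (sg f Y q) = 1 := by
  obtain ⟨a, ha, rfl⟩ := hq
  have h := sg_unit (p := dg Y a) hf ha
  rw [show (QuotientGroup.mk' Y) a = ((dg Y a).1.1 : X ⧸ Y) from rfl, hw (dg Y a) ha _ h.left,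
    h.mul, J74.lam_f hF (sblk_sig hF hf)]

theorem w_z (hF : IsAlgClosed F) (hf : SBlk Y f) (hw : IsW f Y w) {p : Lam Y}
    (hp : p ∈ fstP Y (XF f Y)) {z u : Lam Y → F} (hz : CE (sig Y f f) (YY2 Y) 1 z)
    (hu : CE (sig Y f f) (YY2 Y) p u) : w (mulF z u) = lamJ (sig Y f f) z * w u := by
  have h1 : CE (sig Y f f) (YY2 Y) p (mulF z u) := by
    have := hz.mul normal_YY2 hu
    rwa [one_mul] at this
  rw [hw p hp _ h1, hw p hp _ hu, mulF_assoc,
    J74.lam_mul hF normal_YY2 (sblk_sig hF hf) hz (CE_w1 hf hp hu)]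

theorem w_mul1 (hF : IsAlgClosed F) (hf : SBlk Y f) (hw : IsW f Y w) {p p' : Lam Y}
    (hp : p ∈ fstP Y (XF f Y)) (hp' : p' ∈ fstP Y (XF f Y)) {u u' : Lam Y → F}
    (hu : CE (sig Y f f) (YY2 Y) p u) (hu' : CE (sig Y f f) (YY2 Y) p' u') :
    w (mulF u u') = w u * w u' := by
  have hg := sblk_sig (Y := Y) hF hf
  have hN := normal_YY2 (Y := Y)
  obtain ⟨z, hz, rfl⟩ := J74.unit_span hN hg (sg_unit hf hp) hu
  obtain ⟨z', hz', rfl⟩ := J74.unit_span hN hg (sg_unit hf hp') hu'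
  have hs := (sg_unit hf hp).left
  have hs' := (sg_unit hf hp').left
  have hj : (p.1.1 : X ⧸ Y) ∈ Jb f Y := ⟨_, hp, rfl⟩
  have hj' : (p'.1.1 : X ⧸ Y) ∈ Jb f Y := ⟨_, hp', rfl⟩
  have hpp := (fstP Y (XF f Y)).mul_mem hp hp'
  have hss := hs.mul hN hs'
  have e : mulF (mulF z (sg f Y (p.1.1 : X ⧸ Y))) (mulF z' (sg f Y (p'.1.1 : X ⧸ Y))) =
      mulF (mulF z z') (mulF (sg f Y (p.1.1 : X ⧸ Y)) (sg f Y (p'.1.1 : X ⧸ Y))) := by
    rw [mulF_assoc, ← mulF_assoc _ z', ← J74.C1_comm hz' hs.cc, mulF_assoc, mulF_assoc]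
  have hs3 := (sg_unit (p := p * p') hf hpp).left
  have h1 : w (mulF (sg f Y (p.1.1 : X ⧸ Y)) (sg f Y (p'.1.1 : X ⧸ Y))) = 1 := by
    have h2 := w_J1 hF hf hw hpp (hss.sub hs3) (sg_mul hF hf hp hp')
    have hjj : ((p * p').1.1 : X ⧸ Y) ∈ Jb f Y := ⟨_, hpp, rfl⟩
    rw [map_sub, w_sg hF hf hw hjj, sub_eq_zero] at h2
    exact h2
  rw [e, w_z hF hf hw hpp (J74.CE.mul1 hN hz hz') hss, h1, mul_one, w_z hF hf hw hp hz hs,
    w_z hF hf hw hp' hz' hs', w_sg hF hf hw hj, w_sg hF hf hw hj', mul_one, mul_one,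
    J74.lam_mul hF hN hg hz hz']

theorem w_mul (hF : IsAlgClosed F) (hf : SBlk Y f) (hw : IsW f Y w) {a b : Lam Y → F}
    (ha : DE (sig Y f f) (YY2 Y) (fstP Y (XF f Y)) a)
    (hb : DE (sig Y f f) (YY2 Y) (fstP Y (XF f Y)) b) : w (mulF a b) = w a * w b := by
  have hg := sblk_sig (Y := Y) hF hf
  have ha' := H58.DE_span hg normal_YY2 (N_le_M hf) ha
  have hb' := H58.DE_span hg normal_YY2 (N_le_M hf) hb
  clear ha hb
  induction ha' using Submodule.span_induction with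
  | mem a ha =>
    obtain ⟨p, hp, ha⟩ := ha
    induction hb' using Submodule.span_induction with
    | mem b hb =>
      obtain ⟨p', hp', hb⟩ := hb
      exact w_mul1 hF hf hw hp hp' ha hb
    | zero => rw [mulF_zero', map_zero, mul_zero]
    | add x y _ _ hx hy => rw [J74.mulF_add', map_add, map_add, hx, hy, mul_add]
    | smul c x _ hx =>
      rw [J74.mulF_smul', map_smul, map_smul, hx, smul_eq_mul, smul_eq_mul]
      ring
  | zero => rw [zero_mulF', map_zero, zero_mul]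
  | add x y _ _ hx hy => rw [J74.add_mulF', map_add, map_add, hx, hy, add_mul]
  | smul c x _ hx =>
    rw [J74.smul_mulF', map_smul, map_smul, hx, smul_eq_mul, smul_eq_mul]
    ring

theorem w_one (hF : IsAlgClosed F) (hf : SBlk Y f) (hw : IsW f Y w) : w (sig Y f f) = 1 := by
  have hg := sblk_sig (Y := Y) hF hf
  have h1 : (1 : X) ∈ XF f Y := (XF f Y).one_mem
  have h2 : (1 : Lam Y) ∈ fstP Y (XF f Y) := (fstP Y (XF f Y)).one_mem
  have h3 := w_J1 hF hf hw h2 ((J74.f_CE hg).sub (sg_unit (p := (1 : Lam Y)) hf h1).left)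
    (sg_one hF hf)
  rw [map_sub, sub_eq_zero] at h3
  rw [h3]
  exact w_sg hF hf hw ⟨1, h1, rfl⟩

theorem w_cj (hF : IsAlgClosed F) (hf : SBlk Y f) (hw : IsW f Y w) (x : Lam Y) {a : Lam Y → F}
    (ha : DE (sig Y f f) (YY2 Y) (fstP Y (XF f Y)) a) : w (cjF x a) = w a := by
  have hg := sblk_sig (Y := Y) hF hf
  have hN := normal_YY2 (Y := Y)
  have ha' := H58.DE_span hg normal_YY2 (N_le_M hf) ha
  clear ha
  induction ha' using Submodule.span_induction with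
  | mem a ha =>
    obtain ⟨p, hp, ha⟩ := ha
    obtain ⟨z, hz, rfl⟩ := J74.unit_span hN hg (sg_unit hf hp) ha
    have hpx := (M_normal hf).conj_mem p hp x
    have hs := (sg_unit hf hp).left
    have hsx := hs.cjF hN hg x
    have hs3 := (sg_unit (p := x * p * x⁻¹) hf hpx).left
    have hj : (p.1.1 : X ⧸ Y) ∈ Jb f Y := ⟨_, hp, rfl⟩
    have h1 : w (cjF x (sg f Y (p.1.1 : X ⧸ Y))) = 1 := by
      have h2 := w_J1 hF hf hw hpx (hsx.sub hs3) (sg_conj hF hf x hp)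
      have hjj : ((x * p * x⁻¹).1.1 : X ⧸ Y) ∈ Jb f Y := ⟨_, hpx, rfl⟩
      rw [map_sub, w_sg hF hf hw hjj, sub_eq_zero] at h2
      exact h2
    obtain ⟨h3, h4⟩ := lam_cj hF hN hg hz x
    rw [J74.cjF_mul, w_z hF hf hw hpx h3 hsx, w_z hF hf hw hp hz hs, h1, h4,
      w_sg hF hf hw hj]
  | zero => rfl
  | add x' y _ _ hx hy =>
    have h := (cL x).map_add x' y
    change cjF x (x' + y) = cjF x x' + cjF x y at h
    rw [h, map_add, map_add, hx, hy]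
  | smul c x' _ hx =>
    have h := (cL x).map_smul c x'
    change cjF x (c • x') = c • cjF x x' at h
    rw [h, map_smul, map_smul, hx]

/-- the one dimensional representation -/
def W0 (w : (Lam Y → F) →ₗ[F] F) : (Lam Y → F) →ₗ[F] Matrix (Fin 1) (Fin 1) F :=
  (LinearMap.toSpanSingleton F _ (1 : Matrix (Fin 1) (Fin 1) F)) ∘ₗ w

theorem W0_apply (d : Lam Y → F) : W0 w d = w d • (1 : Matrix (Fin 1) (Fin 1) F) := rfl

theorem W0_irr (hF : IsAlgClosed F) (hf : SBlk Y f) (hw : IsW f Y w) :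
    IrrD (sig Y f f) (YY2 Y) (fstP Y (XF f Y)) (W0 w) := by
  have hg := sblk_sig (Y := Y) hF hf
  refine ⟨one_pos, ?_, ?_, ?_⟩
  · rw [W0_apply, w_one hF hf hw, one_smul]
  · intro a b ha hb
    rw [W0_apply, W0_apply, W0_apply, w_mul hF hf hw ha hb, smul_mul_smul_comm, one_mul]
  · rw [eq_top_iff]
    intro A _
    have e : A = A 0 0 • W0 w (sig Y f f) := by
      rw [W0_apply, w_one hF hf hw, one_smul]
      ext i j
      fin_cases i
      fin_cases j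
      simp
    rw [e]
    apply Submodule.smul_mem
    apply Submodule.subset_span
    exact ⟨_, H58.CE_DE (N_le_M hf) (Subgroup.one_mem _) (J74.f_CE hg), rfl⟩

end w

end Pool.Agent.PP.H46
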