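import Pool.Agent.Helper46_PP.Db1d
import Pool.Agent.Helper58_PP.Chr

/-!
# Squad PP, module DB1 (AWC_J 7.5): `B_E = 1`
-/

open scoped BigOperators

set_option linter.unusedSectionVars false

noncomputable section

namespace Pool.Agent.PP.H46

open Pool.Agent.PP

variable {F X : Type} [Field F] [Group X] [Finite X] {Y : Subgroup X} [hY : Y.Normal]
  {f : X → F} {H : Subgroup (X ⧸ Y)} [Fintype H] {E : Lam Y → F} {ℓ : ℕ}

/-- the properties of the idempotent `E` -/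
structure IsE (f : X → F) (Y : Subgroup X) [Y.Normal] (H : Subgroup (X ⧸ Y)) [Fintype H]
    (E : Lam Y → F) : Prop where
  le : H ≤ Jb f Y
  idem : IsIdem E
  supp : ∀ h, h ∉ fstP Y (XF f Y) → E h = 0
  abs : mulF E (sig Y f f) = E
  sub : E - sel f Y H ∈ J1C (sig Y f f) (YY2 Y)

theorem E_comm (hE : IsE f Y H E) (d : Lam Y → F) : mulF d E = mulF E d :=
  J74.comm_of_supp (Y := (⊤ : Subgroup (Lam Y))) (fun h hh => absurd (Subgroup.mem_top h) hh)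
    (fun n _ h => hE.idem.1 h n)

theorem E_DE (hE : IsE f Y H E) : DE (sig Y f f) (YY2 Y) (fstP Y (XF f Y)) E := by
  refine ⟨⟨fun n _ h => hE.idem.1 h n, ?_⟩, hE.supp⟩
  rw [E_comm hE, hE.abs]

section W

variable {m : ℕ} {W : (Lam Y → F) →ₗ[F] Matrix (Fin m) (Fin m) F}

theorem W_J1 (hF : GoodF ℓ F) (hf : SBlk Y f)
    (hW : IrrD (sig Y f f) (YY2 Y) (fstP Y (XF f Y)) W) {u v : Lam Y → F}
    (hu : DE (sig Y f f) (YY2 Y) (fstP Y (XF f Y)) u)
    (hv : DE (sig Y f f) (YY2 Y) (fstP Y (XF f Y)) v)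
    (h : u - v ∈ J1C (sig Y f f) (YY2 Y)) : W u = W v := by
  have h1 := (H58.wjc ℓ F hF (Lam Y) (YY2 Y) normal_YY2 _ (sblk_sig hF.closed hf) _ (M_normal hf)
    (N_le_M hf) m W hW).1 _ h ((DEs (sig Y f f) (YY2 Y) (fstP Y (XF f Y))).sub_mem hu hv)
  rwa [map_sub, sub_eq_zero] at h1

theorem W_E (hW : IrrD (sig Y f f) (YY2 Y) (fstP Y (XF f Y)) W) (hE : IsE f Y H E)
    (hω : ∀ d, DE (sig Y f f) (YY2 Y) (fstP Y (XF f Y)) d →
      (W (mulF E d)).trace = (W d).trace) : W E = 1 := by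
  have hd := E_DE hE
  obtain ⟨w, hw⟩ := H58.scalar_of_comm hW (A := W E) (fun d hd' => by
    rw [← hW.mul _ _ hd hd', ← hW.mul _ _ hd' hd, E_comm hE])
  have h1 : W E * W E = W E := by
    rw [← hW.mul _ _ hd hd, hE.idem.2]
  have h2 : w * w = w := by
    rw [hw, ← map_mul] at h1
    have h3 := congrFun (congrFun h1 ⟨0, hW.pos⟩) ⟨0, hW.pos⟩
    simpa using h3
  have h3 : w ≠ 0 := by
    rintro rfl
    rw [map_zero] at hw
    obtain ⟨d, hd', hne⟩ := H58.W_tr_ne hW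
    apply hne
    rw [← hω d hd', hW.mul _ _ hd hd', hw, zero_mul, Matrix.trace_zero]
  have h4 : w = 1 := by
    have := mul_right_cancel₀ h3 (h2.trans (one_mul w).symm)
    exact this
  rw [hw, h4, map_one]

theorem W_sel (hF : GoodF ℓ F) (hf : SBlk Y f)
    (hW : IrrD (sig Y f f) (YY2 Y) (fstP Y (XF f Y)) W) (hE : IsE f Y H E)
    (h1 : W E = 1) : W (sel f Y H) = 1 := by
  rw [← W_J1 hF hf hW (E_DE hE) (sel_DE hf hE.le) hE.sub, h1]

theorem W_sgH (hF : GoodF ℓ F) (hf : SBlk Y f)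
    (hW : IrrD (sig Y f f) (YY2 Y) (fstP Y (XF f Y)) W) (hE : IsE f Y H E)
    (h1 : W E = 1) (q : H) : W (sg f Y (q : X ⧸ Y)) = 1 := by
  have hs := W_sel hF hf hW hE h1
  have hq := sg_DE hf (hE.le q.2)
  have hd := sel_DE hf hE.le
  have h2 := W_J1 hF hf hW (H76.DE.mul hq hd) hd (pj_iff.1 (sg_sel hF.closed hf hE.le q))
  rwa [hW.mul _ _ hq hd, hs, mul_one] at h2

/-- the representation of `X[f] / Y` -/
def rep (hF : GoodF ℓ F) (hf : SBlk Y f)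
    (hW : IrrD (sig Y f f) (YY2 Y) (fstP Y (XF f Y)) W) :
    Jb f Y →* Matrix (Fin m) (Fin m) F where
  toFun q := W (sg f Y (q : X ⧸ Y))
  map_one' := by
    have hg := sblk_sig (Y := Y) hF.closed hf
    have h1 := W_J1 hF hf hW (H58.CE_DE (N_le_M hf) (Subgroup.one_mem _) (J74.f_CE hg))
      (sg_DE hf (Jb f Y).one_mem) (sg_one hF.closed hf)
    rw [hW.one] at h1
    exact h1.symm
  map_mul' q r := by
    have hq := sg_DE hf q.2
    have hr := sg_DE hf r.2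
    rw [← hW.mul _ _ hq hr]
    exact (W_J1 hF hf hW (H76.DE.mul hq hr) (sg_DE hf (q * r).2)
      (pj_iff.1 (sg_mul' hF.closed hf q.2 r.2))).symm

theorem rep_apply (hF : GoodF ℓ F) (hf : SBlk Y f)
    (hW : IrrD (sig Y f f) (YY2 Y) (fstP Y (XF f Y)) W) (q : Jb f Y) :
    rep hF hf hW q = W (sg f Y (q : X ⧸ Y)) := rfl

theorem W_zsg (hF : GoodF ℓ F) (hf : SBlk Y f)
    (hW : IrrD (sig Y f f) (YY2 Y) (fstP Y (XF f Y)) W) {z : Lam Y → F}
    (hz : CE (sig Y f f) (YY2 Y) 1 z) {q : X ⧸ Y} (hq : q ∈ Jb f Y) :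
    W (mulF z (sg f Y q)) = lamJ (sig Y f f) z • W (sg f Y q) := by
  have hg := sblk_sig (Y := Y) hF.closed hf
  rw [hW.mul _ _ (H58.CE_DE (N_le_M hf) (Subgroup.one_mem _) hz) (sg_DE hf hq),
    H58.W_lam hF.closed hg normal_YY2 (N_le_M hf) hW hz, Matrix.scalar_apply,
    ← Matrix.smul_eq_diagonal_mul]

theorem rep_irr (hF : GoodF ℓ F) (hf : SBlk Y f)
    (hW : IrrD (sig Y f f) (YY2 Y) (fstP Y (XF f Y)) W) : IsIrr (rep hF hf hW) := by
  have hg := sblk_sig (Y := Y) hF.closed hf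
  refine ⟨hW.pos, ?_⟩
  rw [eq_top_iff, ← hW.irr]
  apply Submodule.span_le.2
  rintro _ ⟨d, hd, rfl⟩
  have hd' := H58.DE_span hg normal_YY2 (N_le_M hf) hd
  clear hd
  induction hd' using Submodule.span_induction with
  | mem x hx =>
    obtain ⟨p, hp, hx⟩ := hx
    obtain ⟨z, hz, rfl⟩ := J74.unit_span normal_YY2 hg (sg_unit hf hp) hx
    have hj : (p.1.1 : X ⧸ Y) ∈ Jb f Y := ⟨_, hp, rfl⟩
    rw [W_zsg hF hf hW hz hj]
    exact Submodule.smul_mem _ _ (Submodule.subset_span ⟨⟨_, hj⟩, rfl⟩)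
  | zero =>
    rw [map_zero]
    exact Submodule.zero_mem _
  | add x y _ _ hx hy =>
    rw [map_add]
    exact Submodule.add_mem _ hx hy
  | smul a x _ hx =>
    rw [map_smul]
    exact Submodule.smul_mem _ _ hx

theorem rep_one (hF : GoodF ℓ F) (hf : SBlk Y f)
    (hW : IrrD (sig Y f f) (YY2 Y) (fstP Y (XF f Y)) W) (hE : IsE f Y H E)
    (h1 : W E = 1) (hn : H.Normal) {n : ℕ} (hp : ∀ q ∈ Jb f Y, q ^ (ℓ ^ n) ∈ H) (q : Jb f Y) :
    rep hF hf hW q = 1 := by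
  have hn' : (H.subgroupOf (Jb f Y)).Normal := hn.subgroupOf _
  have hker : H.subgroupOf (Jb f Y) ≤ (rep hF hf hW).ker := by
    intro r hr
    exact W_sgH hF hf hW hE h1 ⟨r, hr⟩
  let ρ : (Jb f Y ⧸ H.subgroupOf (Jb f Y)) →* Matrix (Fin m) (Fin m) F :=
    QuotientGroup.lift _ (rep hF hf hW) hker
  have hρ : IsIrr ρ := by
    refine ⟨hW.pos, ?_⟩
    rw [← (rep_irr hF hf hW).2]
    congr 1
    ext Z
    constructor
    · rintro ⟨t, rfl⟩
      obtain ⟨t, rfl⟩ := QuotientGroup.mk_surjective t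
      exact ⟨t, rfl⟩
    · rintro ⟨t, rfl⟩
      exact ⟨(t : Jb f Y ⧸ H.subgroupOf (Jb f Y)), rfl⟩
  have hpg : IsPGroup ℓ (⊤ : Subgroup (Jb f Y ⧸ H.subgroupOf (Jb f Y))) := by
    rintro ⟨t, -⟩
    obtain ⟨t, rfl⟩ := QuotientGroup.mk_surjective t
    refine ⟨n, ?_⟩
    apply Subtype.ext
    change ((t ^ (ℓ ^ n) : Jb f Y) : Jb f Y ⧸ H.subgroupOf (Jb f Y)) = 1
    rw [QuotientGroup.eq_one_iff]
    exact hp t t.2
  exact H20.nls_triv hF.prime hF.char ⊤ inferInstance hpg ρ hρ (q : Jb f Y ⧸ H.subgroupOf (Jb f Y))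
    (Subgroup.mem_top _)

theorem W_eq (hF : GoodF ℓ F) (hf : SBlk Y f)
    (hW : IrrD (sig Y f f) (YY2 Y) (fstP Y (XF f Y)) W) (hE : IsE f Y H E)
    (h1 : W E = 1) (hn : H.Normal) {n : ℕ} (hp : ∀ q ∈ Jb f Y, q ^ (ℓ ^ n) ∈ H)
    {w : (Lam Y → F) →ₗ[F] F} (hw : IsW f Y w) {d : Lam Y → F}
    (hd : DE (sig Y f f) (YY2 Y) (fstP Y (XF f Y)) d) :
    W d = w d • (1 : Matrix (Fin m) (Fin m) F) := by
  have hg := sblk_sig (Y := Y) hF.closed hf
  have hd' := H58.DE_span hg normal_YY2 (N_le_M hf) hd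
  clear hd
  induction hd' using Submodule.span_induction with
  | mem x hx =>
    obtain ⟨p, hp', hx⟩ := hx
    have hu := sg_unit hf hp'
    obtain ⟨z, hz, rfl⟩ := J74.unit_span normal_YY2 hg hu hx
    have hj : (p.1.1 : X ⧸ Y) ∈ Jb f Y := ⟨_, hp', rfl⟩
    have h2 := rep_one hF hf hW hE h1 hn hp ⟨_, hj⟩
    rw [rep_apply] at h2
    rw [W_zsg hF hf hW hz hj, h2, w_z hF.closed hf hw hp' hz hu.left, w_sg hF.closed hf hw hj,
      mul_one]
  | zero => rw [map_zero, map_zero, zero_smul]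
  | add x y _ _ hx hy => rw [map_add, map_add, hx, hy, add_smul]
  | smul a x _ hx => rw [map_smul, map_smul, hx, smul_smul, smul_eq_mul]

theorem m_one (hF : GoodF ℓ F) (hf : SBlk Y f)
    (hW : IrrD (sig Y f f) (YY2 Y) (fstP Y (XF f Y)) W) (hE : IsE f Y H E)
    (h1 : W E = 1) (hn : H.Normal) {n : ℕ} (hp : ∀ q ∈ Jb f Y, q ^ (ℓ ^ n) ∈ H)
    {w : (Lam Y → F) →ₗ[F] F} (hw : IsW f Y w) : m = 1 := by
  have key : ∀ A : Matrix (Fin m) (Fin m) F, ∃ c : F, A = c • 1 := by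
    intro A
    have hA : A ∈ Submodule.span F (W '' {d | DE (sig Y f f) (YY2 Y) (fstP Y (XF f Y)) d}) := by
      rw [hW.irr]
      trivial
    induction hA using Submodule.span_induction with
    | mem x hx =>
      obtain ⟨d, hd, rfl⟩ := hx
      exact ⟨w d, W_eq hF hf hW hE h1 hn hp hw hd⟩
    | zero => exact ⟨0, (zero_smul _ _).symm⟩
    | add x y _ _ hx hy =>
      obtain ⟨a, rfl⟩ := hx
      obtain ⟨b, rfl⟩ := hy
      exact ⟨a + b, (add_smul _ _ _).symm⟩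
    | smul c x _ hx =>
      obtain ⟨a, rfl⟩ := hx
      exact ⟨c * a, by rw [smul_smul]⟩
  by_contra hm
  have hm2 : 1 < m := lt_of_le_of_ne hW.pos (Ne.symm hm)
  obtain ⟨c, hc⟩ := key (Matrix.single (⟨0, hW.pos⟩ : Fin m) ⟨1, hm2⟩ (1 : F))
  have h2 := congrFun (congrFun hc ⟨0, hW.pos⟩) ⟨1, hm2⟩
  rw [Matrix.single_apply_same, Matrix.smul_apply, Matrix.one_apply_ne, smul_zero] at h2
  · exact one_ne_zero h2
  · intro h
    have := congrArg Fin.val h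
    simp at this

end W

end Pool.Agent.PP.H46
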